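import Mathlib

/-!
# The set of the Denjoy integrable functions is `Π¹₂`: definitions and the statements of the lemmas

Every `TaskXxx` is a self-contained statement. The tasks named in its doc string may be used as hypotheses.
-/

set_option autoImplicit false

namespace Pool.Agent.Q302.DJ

open MeasureTheory Set Filter Topology

/-! ### The Denjoy integral (as in the problem file) -/

/-- the oscillation `ω(F, [c, d])` -/
noncomputable def osc (F : ℝ → ℝ) (c d : ℝ) : ℝ :=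
  sSup ((fun z : ℝ × ℝ => |F z.1 - F z.2|) '' (Icc c d ×ˢ Icc c d))

/-- `F` is in `AC_*(K)` -/
def ACStar (F : ℝ → ℝ) (K : Set ℝ) : Prop :=
  ∀ ε : ℝ, 0 < ε → ∃ δ : ℝ, 0 < δ ∧ ∀ (n : ℕ) (x y : Fin n → ℝ),
    (∀ i, x i ∈ K ∧ y i ∈ K ∧ x i < y i) →
    (∀ i j, i ≠ j → Disjoint (Ioo (x i) (y i)) (Ioo (x j) (y j))) →
    ∑ i, (y i - x i) < δ → ∑ i, osc F (x i) (y i) < ε

/-- `F` is in `ACG_*([c, d])` -/
def ACGStar (F : ℝ → ℝ) (c d : ℝ) : Prop :=
  ContinuousOn F (Icc c d) ∧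
    ∃ K : ℕ → Set ℝ, (∀ n, IsClosed (K n)) ∧ Icc c d = ⋃ n, K n ∧ ∀ n, ACStar F (K n)

/-- `F` is an indefinite Denjoy integral of `φ` on `[c, d]` -/
def IsPrim (φ F : ℝ → ℝ) (c d : ℝ) : Prop :=
  ACGStar F c d ∧ ∀ᵐ x ∂(volume.restrict (Icc c d)), HasDerivAt F (φ x) x

/-! ### The space `M[a, b]` -/

/-- the measurable real functions on `[a, b]` modulo equality almost everywhere -/
def M (a b : ℝ) : Type := ℝ →ₘ[volume.restrict (Icc a b)] ℝ

/-- a representative -/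
noncomputable def M.rep {a b : ℝ} (f : M a b) : ℝ → ℝ :=
  ((show ℝ →ₘ[volume.restrict (Icc a b)] ℝ from f) : ℝ → ℝ)

/-- the distance `∫ min (1, |f - g|)`, which defines the topology of the convergence in measure -/
noncomputable def dM {a b : ℝ} (f g : M a b) : ℝ := ∫ x in Icc a b, min 1 |f.rep x - g.rep x|

/-- The distance is a metric. -/
def TaskMetric : Prop := ∀ a b : ℝ, (∀ f : M a b, dM f f = 0) ∧ (∀ f g : M a b, dM f g = dM g f) ∧
  (∀ f g h : M a b, dM f h ≤ dM f g + dM g h) ∧ ∀ f g : M a b, dM f g = 0 → f = g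

/-! ### Approximation by continuous functions -/

/-- the continuous functions on `[a, b]` -/
abbrev CC (a b : ℝ) : Type := C(Icc a b, ℝ)

/-- the extension to the line which is constant on the left and on the right of `[a, b]` -/
noncomputable def ex {a b : ℝ} (h : a ≤ b) (u : CC a b) : ℝ → ℝ := IccExtend h u

/-- the consecutive members of the sequence `g` are close to each other in measure -/
def Fast {a b : ℝ} (h : a ≤ b) (g : ℕ → CC a b) : Prop :=
  ∀ n, ∫ x in Icc a b, min 1 |ex h (g n) x - ex h (g (n + 1)) x| ≤ (1 / 2 : ℝ) ^ n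

/-- the sequence converges almost everywhere to `φ` -/
def LimIs {a b : ℝ} (h : a ≤ b) (g : ℕ → CC a b) (φ : ℝ → ℝ) : Prop :=
  ∀ᵐ x ∂(volume.restrict (Icc a b)), Tendsto (fun n => ex h (g n) x) atTop (𝓝 (φ x))

/-- Fast sequences converge almost everywhere (Borel–Cantelli: `∑ min (1, |g_n - g_{n+1}|)` is
integrable). -/
def TaskLim : Prop := ∀ (a b : ℝ) (h : a ≤ b) (g : ℕ → CC a b), Fast h g →
  ∃ f : M a b, LimIs h g f.rep

/-- Every measurable function is the limit of a fast sequence of continuous functions. -/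
def TaskSurj : Prop := ∀ (a b : ℝ) (h : a ≤ b) (f : M a b), ∃ g : ℕ → CC a b, Fast h g ∧
  LimIs h g f.rep

/-- The limit depends continuously on the fast sequence. -/
def TaskCont : Prop := ∀ (a b : ℝ) (h : a ≤ b) (g : ℕ → CC a b), Fast h g → ∀ ε : ℝ, 0 < ε →
  ∃ (N : ℕ) (δ : ℝ), 0 < δ ∧ ∀ g' : ℕ → CC a b, Fast h g' → dist (g N) (g' N) < δ →
    ∀ f f' : M a b, LimIs h g f.rep → LimIs h g' f'.rep → dM f f' < ε

/-- The set of the fast sequences is closed. -/
def TaskFast : Prop := ∀ (a b : ℝ) (h : a ≤ b), IsClosed {g : ℕ → CC a b | Fast h g}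

/-! ### Partial functions on the rational intervals -/

/-- the point of `[a, b]` with the rational coordinate `q` -/
noncomputable def pt (a b : ℝ) (q : ℚ) : ℝ := a + (b - a) * (q : ℝ)

/-- the partial functions on the pairs of rational numbers: `(Φ (q, r)).2 = true` says that `Φ` is
defined at the interval `[pt q, pt r]`, and `(Φ (q, r)).1` is its value -/
abbrev Y : Type := ℚ × ℚ → ℝ × Bool

/-- a countable form of `F ∈ AC_*(closure of {p 0, p 1, ...})` -/
def ACc (F : ℝ → ℝ) (p : ℕ → ℝ) : Prop :=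
  ∀ k : ℕ, ∃ m : ℕ, ∀ (n : ℕ) (i j : Fin n → ℕ) (u v : Fin n → ℚ),
    (∀ l, p (i l) < p (j l)) →
    (∀ l l', l ≠ l' → p (j l) ≤ p (i l') ∨ p (j l') ≤ p (i l)) →
    (∀ l, p (i l) ≤ u l ∧ (u l : ℝ) ≤ p (j l) ∧ p (i l) ≤ v l ∧ (v l : ℝ) ≤ p (j l)) →
    ∑ l, (p (j l) - p (i l)) < 1 / ((m : ℝ) + 1) →
    ∑ l, |F (u l) - F (v l)| ≤ 1 / ((k : ℝ) + 1)

/-- `[c, d]` does not meet the closure of `{p 0, p 1, ...}` -/
def Avoid (p : ℕ → ℝ) (c d : ℝ) : Prop :=
  ∃ n : ℕ, ∀ m, p m < c - 1 / ((n : ℝ) + 1) ∨ d + 1 / ((n : ℝ) + 1) < p m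

/-- `Φ` is defined at `[pt q, pt r]`, with the value `F (pt r) - F (pt q)` -/
def Concl (a b : ℝ) (Φ : Y) (F : ℝ → ℝ) (q r : ℚ) : Prop :=
  (Φ (q, r)).2 = true ∧ (Φ (q, r)).1 = F (pt a b r) - F (pt a b q)

/-- the hypotheses of the extension step for `F`, the closed set `closure (range p)` and the interval
`[pt q, pt r]`, without the one on the derivative of `F` on the closed set -/
def Step (a b : ℝ) (Φ : Y) (F : ℝ → ℝ) (p : ℕ → ℝ) (q r : ℚ) : Prop :=
  (0 ≤ q ∧ q < r ∧ r ≤ 1) ∧ (∀ n, pt a b q ≤ p n ∧ p n ≤ pt a b r) ∧ ACc F p ∧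
    ∀ q' r' : ℚ, q ≤ q' → q' < r' → r' ≤ r → Avoid p (pt a b q') (pt a b r') → Concl a b Φ F q' r'

/-- `F' = φ` almost everywhere on the closed set -/
def DerivOn (a b : ℝ) (φ F : ℝ → ℝ) (p : ℕ → ℝ) : Prop :=
  ∀ᵐ x ∂(volume.restrict (Icc a b)), x ∈ closure (range p) → HasDerivAt F (φ x) x

/-- `F' = lim g` almost everywhere on the closed set -/
def DerivG {a b : ℝ} (h : a ≤ b) (g : ℕ → CC a b) (F : ℝ → ℝ) (p : ℕ → ℝ) : Prop :=
  ∀ᵐ x ∂(volume.restrict (Icc a b)), x ∈ closure (range p) →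
    ∀ k : ℕ, ∃ m : ℕ, ∀ n, m ≤ n → ∀ t : ℚ, t ≠ 0 → |(t : ℝ)| < 1 / ((m : ℝ) + 1) →
      |F (x + t) - F x - ex h (g n) x * t| ≤ |(t : ℝ)| / ((k : ℝ) + 1)

/-- `Φ` is closed under the extension steps (for the function `φ`) -/
def ClosedStep {a b : ℝ} (h : a ≤ b) (φ : ℝ → ℝ) (Φ : Y) : Prop :=
  ∀ (F : CC a b) (p : ℕ → ℝ) (q r : ℚ), Step a b Φ (ex h F) p q r → DerivOn a b φ (ex h F) p →
    Concl a b Φ (ex h F) q r

/-- `Φ` is the Denjoy integral of `φ` on the rational intervals -/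
def TrueInt (a b : ℝ) (φ : ℝ → ℝ) (Φ : Y) : Prop :=
  ∀ q r : ℚ, 0 ≤ q → q < r → r ≤ 1 →
    ((Φ (q, r)).2 = true ↔ ∃ F, IsPrim φ F (pt a b q) (pt a b r)) ∧
      ∀ F, IsPrim φ F (pt a b q) (pt a b r) → (Φ (q, r)).1 = F (pt a b r) - F (pt a b q)

/-! ### Real analysis -/

/-- `AC_*(K)` implies the countable form for the sequences in `K` (easy: `|F u - F v| ≤ osc`). -/
def TaskACc : Prop := ∀ (F : ℝ → ℝ) (K : Set ℝ) (p : ℕ → ℝ), Continuous F → ACStar F K →
  (∀ n, p n ∈ K) → ACc F p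

/-- The countable form implies `AC_*` of the closure (approximate the ends of the intervals by members
of the sequence, equal ends by equal members; the suprema by rational points). -/
def TaskClos : Prop := ∀ (F : ℝ → ℝ) (p : ℕ → ℝ), Continuous F → ACc F p →
  ACStar F (closure (range p))

/-- `F ∈ AC_*(K)`, `N ⊆ K` null: `F (N)` is null. -/
def TaskNull : Prop := ∀ (F : ℝ → ℝ) (K N : Set ℝ), Continuous F → Bornology.IsBounded K →
  ACStar F K → N ⊆ K → volume N = 0 → volume (F '' N) = 0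

/-- Differences and restrictions. -/
def TaskSub : Prop := ∀ (F G : ℝ → ℝ) (c d : ℝ), ContinuousOn F (Icc c d) → ContinuousOn G (Icc c d) →
  ∀ K L : Set ℝ, K ⊆ Icc c d → ACStar F K → ACStar G L → ACStar (fun x => F x - G x) (K ∩ L)

/-- A primitive of zero is constant (uses TaskNull; the image of the set where `F' = 0` is null by
`addHaar_image_eq_zero_of_det_fderiv_eq_zero`; `F` may be changed outside `[c, d]` by `IccExtend`). -/
def TaskZero : Prop := ∀ (F : ℝ → ℝ) (c d : ℝ), c < d → IsPrim (fun _ => 0) F c d →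
  ∀ x ∈ Icc c d, F x = F c

/-- Uniqueness (uses TaskSub, TaskZero). -/
def TaskUniq : Prop := ∀ (φ F G : ℝ → ℝ) (c d : ℝ), c < d → IsPrim φ F c d → IsPrim φ G c d →
  ∀ x ∈ Icc c d, F x - F c = G x - G c

/-- Restriction to subintervals. -/
def TaskRestr : Prop := ∀ (φ F : ℝ → ℝ) (c d c' d' : ℝ), c ≤ c' → c' < d' → d' ≤ d →
  IsPrim φ F c d → IsPrim φ F c' d'

/-- Replacement of `F` by `F + const` with the same values on `[c, d]` only. -/
def TaskCongr : Prop := ∀ (φ F G : ℝ → ℝ) (c d C : ℝ), c < d → (∀ x ∈ Icc c d, F x = G x + C) →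
  IsPrim φ G c d → IsPrim φ F c d

/-- Existence of the true integral (uses TaskUniq). -/
def TaskTrue : Prop := ∀ (a b : ℝ) (φ : ℝ → ℝ), a < b → ∃ Φ : Y, TrueInt a b φ Φ

/-- The function `F` of a step for the true integral is a primitive (uses TaskClos, TaskUniq, TaskRestr,
TaskCongr): the closed sets are `closure (range p)` and those of the primitives on the rational
intervals which avoid it. -/
def TaskGlue : Prop := ∀ (a b : ℝ) (h : a < b) (φ : ℝ → ℝ) (Φ : Y), TrueInt a b φ Φ →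
  ∀ (F : CC a b) (p : ℕ → ℝ) (q r : ℚ), Step a b Φ (ex h.le F) p q r →
    DerivOn a b φ (ex h.le F) p → IsPrim φ (ex h.le F) (pt a b q) (pt a b r)

/-- The true integral is closed under the steps (uses TaskGlue). -/
def TaskSound : Prop := ∀ (a b : ℝ) (h : a < b) (φ : ℝ → ℝ) (Φ : Y), TrueInt a b φ Φ →
  ClosedStep h.le φ Φ

/-! ### Minimality -/

/-- `Φ` agrees with `F` on all rational subintervals of `[pt q, pt r]` -/
def Good (a b : ℝ) (Φ : Y) (F : ℝ → ℝ) (q r : ℚ) : Prop :=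
  ∀ q' r' : ℚ, q ≤ q' → q' < r' → r' ≤ r → Concl a b Φ F q' r'

/-- the relative interior of the good intervals in `[a, b]` -/
def GoodSet (a b : ℝ) (Φ : Y) (F : ℝ → ℝ) : Set ℝ :=
  {x | x ∈ Icc a b ∧ ∃ q r : ℚ, 0 ≤ q ∧ q < r ∧ r ≤ 1 ∧ Good a b Φ F q r ∧
    (pt a b q < x ∨ q = 0) ∧ pt a b q ≤ x ∧ (x < pt a b r ∨ r = 1) ∧ x ≤ pt a b r}

/-- Compactness (Lebesgue number; the step for a finite set of rational points): an interval in the good
set is good. -/
def TaskComp : Prop := ∀ (a b : ℝ) (h : a < b) (φ : ℝ → ℝ) (Φ : Y) (F : CC a b),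
  ClosedStep h.le φ Φ → ∀ q r : ℚ, 0 ≤ q → q < r → r ≤ 1 →
    Icc (pt a b q) (pt a b r) ⊆ GoodSet a b Φ (ex h.le F) → Good a b Φ (ex h.le F) q r

/-- Baire (uses TaskComp, TaskACc): the good set is everything. -/
def TaskBaire : Prop := ∀ (a b : ℝ) (h : a < b) (φ : ℝ → ℝ) (Φ : Y) (F : CC a b),
  ClosedStep h.le φ Φ → IsPrim φ (ex h.le F) a b → GoodSet a b Φ (ex h.le F) = Icc a b

/-- Minimality (uses TaskComp, TaskBaire, TaskCongr). -/
def TaskMin : Prop := ∀ (a b : ℝ) (h : a < b) (φ : ℝ → ℝ) (Φ : Y), ClosedStep h.le φ Φ →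
  (∃ F, IsPrim φ F a b) → (Φ (0, 1)).2 = true

/-! ### Measurability -/

/-- `DerivG` and `DerivOn` agree for the limit of the sequence. -/
def TaskDeriv : Prop := ∀ (a b : ℝ) (h : a < b) (g : ℕ → CC a b) (φ : ℝ → ℝ) (F : CC a b)
  (p : ℕ → ℝ), LimIs h.le g φ → (DerivG h.le g (ex h.le F) p ↔ DerivOn a b φ (ex h.le F) p)

/-- The set of the `(g, F, p)` with `DerivG` is Borel (`measurable_measure_prodMk_left` for a countable
combination of closed conditions in `((g, F, p), x)`). -/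
def TaskMeasD : Prop := ∀ (a b : ℝ) (h : a < b),
  @MeasurableSet ((ℕ → CC a b) × CC a b × (ℕ → ℝ)) (borel _)
    {z | DerivG h.le z.1 (ex h.le z.2.1) z.2.2}

/-- The set of the `(F, p)` with `ACc` is Borel. -/
def TaskMeasA : Prop := ∀ (a b : ℝ) (h : a < b),
  @MeasurableSet (CC a b × (ℕ → ℝ)) (borel _) {z | ACc (ex h.le z.1) z.2}

/-- The set of the `(Φ, F, p)` with `Step` and not `Concl` is Borel (uses TaskMeasA). -/
def TaskMeasS : Prop := ∀ (a b : ℝ) (h : a < b) (q r : ℚ),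
  @MeasurableSet (Y × CC a b × (ℕ → ℝ)) (borel _)
    {z | Step a b z.1 (ex h.le z.2.1) z.2.2 q r ∧ ¬ Concl a b z.1 (ex h.le z.2.1) q r}

/-- the pairs of a fast sequence and a `Φ` which is not a witness -/
def NotWit {a b : ℝ} (h : a ≤ b) : Set ((ℕ → CC a b) × Y) :=
  {z | Fast h z.1 ∧ ((z.2 (0, 1)).2 = true ∨ ∃ (F : CC a b) (p : ℕ → ℝ) (q r : ℚ),
    DerivG h z.1 (ex h F) p ∧ Step a b z.2 (ex h F) p q r ∧ ¬ Concl a b z.2 (ex h F) q r)}

/-- This set is analytic (uses TaskMeasD, TaskMeasS, TaskFast). -/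
def TaskAn : Prop := ∀ (a b : ℝ) (h : a < b), AnalyticSet (NotWit h.le)

end Pool.Agent.Q302.DJ
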