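import Mathlib
import Pool.Agent.Q302.DJ.Stmts

set_option autoImplicit false

namespace Pool.Agent.Q302.DJ

open MeasureTheory Set Filter Topology

/-- the metric space of the measurable functions -/
noncomputable def metricM (h : TaskMetric) (a b : ℝ) : MetricSpace (M a b) where
  dist := dM
  dist_self := (h a b).1
  dist_comm := (h a b).2.1
  dist_triangle := (h a b).2.2.1
  eq_of_dist_eq_zero := (h a b).2.2.2 _ _

theorem asm (hMetric : TaskMetric) (hLim : TaskLim) (hSurj : TaskSurj) (hCont : TaskCont)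
    (hTrue : TaskTrue) (hSound : TaskSound) (hMin : TaskMin) (hDeriv : TaskDeriv) (hAn : TaskAn)
    (a b : ℝ) (hab : a < b) :
    letI := metricM hMetric a b
    ∃ (B : Set (M a b × Y)), AnalyticSet Bᶜ ∧ {f : M a b | ∃ F, IsPrim f.rep F a b}ᶜ = Prod.fst '' B := by
  letI := metricM hMetric a b
  refine ⟨{z | ClosedStep hab.le z.1.rep z.2 ∧ (z.2 (0, 1)).2 ≠ true}, ?_, ?_⟩
  · -- the limit
    have huniq : ∀ (g : ℕ → CC a b), Fast hab.le g → ∀ f f' : M a b, LimIs hab.le g f.rep →
        LimIs hab.le g f'.rep → f = f' := by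
      intro g hg f f' hf hf'
      apply (hMetric a b).2.2.2
      apply le_antisymm
      · apply le_of_forall_pos_le_add
        intro ε hε
        obtain ⟨N, δ, hδ, h⟩ := hCont a b hab.le g hg ε hε
        have := h g hg (by rw [dist_self]; exact hδ) f f' hf hf'
        linarith
      · have : 0 ≤ dist f f' := dist_nonneg
        exact this
    classical
    haveI : Nonempty (M a b) := ⟨(0 : ℝ →ₘ[volume.restrict (Icc a b)] ℝ)⟩
    let π : (ℕ → CC a b) → M a b := fun g =>
      if h : Fast hab.le g then Classical.choose (hLim a b hab.le g h) else Classical.arbitrary _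
    have hπ : ∀ g, Fast hab.le g → LimIs hab.le g (π g).rep := by
      intro g hg
      have : π g = Classical.choose (hLim a b hab.le g hg) := dif_pos hg
      rw [this]
      exact Classical.choose_spec (hLim a b hab.le g hg)
    have hπc : ContinuousOn π {g | Fast hab.le g} := by
      intro g hg
      rw [ContinuousWithinAt, Metric.tendsto_nhds]
      intro ε hε
      obtain ⟨N, δ, hδ, h⟩ := hCont a b hab.le g hg ε hε
      have hopen : {g' : ℕ → CC a b | dist (g' N) (g N) < δ} ∈ 𝓝 g :=
        (isOpen_lt ((continuous_apply N).dist continuous_const) continuous_const).mem_nhds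
          (by simpa using hδ)
      filter_upwards [mem_nhdsWithin_of_mem_nhds hopen, self_mem_nhdsWithin] with g' h1 h2
      rw [dist_comm]
      exact h g' h2 (by rw [dist_comm]; exact h1) _ _ (hπ g hg) (hπ g' h2)
    have key : {z : M a b × Y | ClosedStep hab.le z.1.rep z.2 ∧ (z.2 (0, 1)).2 ≠ true}ᶜ =
        (fun z : (ℕ → CC a b) × Y => (π z.1, z.2)) '' NotWit hab.le := by
      ext ⟨f, Φ⟩
      constructor
      · intro hz
        obtain ⟨g, hg, hgf⟩ := hSurj a b hab.le f
        refine ⟨(g, Φ), ⟨hg, ?_⟩, ?_⟩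
        · by_cases h1 : (Φ (0, 1)).2 = true
          · exact Or.inl h1
          · right
            have h2 : ¬ ClosedStep hab.le f.rep Φ := fun h => hz ⟨h, h1⟩
            unfold ClosedStep at h2
            push Not at h2
            obtain ⟨F, p, q, r, hS, hD, hC⟩ := h2
            exact ⟨F, p, q, r, (hDeriv a b hab g f.rep F p hgf).2 hD, hS, hC⟩
        · exact Prod.ext (huniq g hg _ _ (hπ g hg) hgf) rfl
      · rintro ⟨⟨g, Φ'⟩, ⟨hg, h⟩, hz⟩
        obtain ⟨rfl, rfl⟩ := Prod.mk.inj hz
        rintro ⟨h1, h2⟩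
        rcases h with h | ⟨F, p, q, r, hD, hS, hC⟩
        · exact h2 h
        · exact hC (h1 F p q r hS ((hDeriv a b hab g _ F p (hπ g hg)).1 hD))
    rw [key]
    refine (hAn a b hab).image_of_continuousOn ?_
    have h1 : ContinuousOn (fun z : (ℕ → CC a b) × Y => π z.1) (NotWit hab.le) :=
      hπc.comp continuous_fst.continuousOn (fun z hz => hz.1)
    exact h1.prodMk continuous_snd.continuousOn
  · have h0 : pt a b 0 = a := by simp [pt]
    have h1 : pt a b 1 = b := by simp [pt]
    ext f
    constructor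
    · intro hf
      obtain ⟨Φ, hΦ⟩ := hTrue a b f.rep hab
      refine ⟨(f, Φ), ⟨hSound a b hab f.rep Φ hΦ, fun h => ?_⟩, rfl⟩
      have := (hΦ 0 1 le_rfl one_pos le_rfl).1.1 h
      rw [h0, h1] at this
      exact hf this
    · rintro ⟨⟨f', Φ⟩, ⟨h1, h2⟩, rfl⟩ hD
      exact h2 (hMin a b hab _ Φ h1 hD)

end Pool.Agent.Q302.DJ
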