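import Pool.Agent.Q302.DJ.Stmts

/-!
# `TaskComp`: an interval contained in the good set is good
-/

set_option autoImplicit false

namespace Pool.Agent.Q302.DJ

open MeasureTheory Set Filter Topology

namespace Comp

theorem pt_lt {a b : ℝ} (h : a < b) {q r : ℚ} : pt a b q < pt a b r ↔ q < r := by
  unfold pt
  have h0 : 0 < b - a := sub_pos.2 h
  constructor
  · intro h1
    have h2 : (b - a) * (q : ℝ) < (b - a) * (r : ℝ) := by linarith
    exact_mod_cast lt_of_mul_lt_mul_left h2 h0.le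
  · intro h1
    have h2 : (q : ℝ) < r := by exact_mod_cast h1
    have h3 := mul_lt_mul_of_pos_left h2 h0
    linarith

theorem pt_le {a b : ℝ} (h : a < b) {q r : ℚ} : pt a b q ≤ pt a b r ↔ q ≤ r := by
  rw [← not_lt, ← not_lt, pt_lt h]

theorem Good.mono {a b : ℝ} {Φ : Y} {F : ℝ → ℝ} {q r q' r' : ℚ} (h : Good a b Φ F q r)
    (hq : q ≤ q') (hr : r' ≤ r) : Good a b Φ F q' r' :=
  fun s t hs hst ht => h s t (hq.trans hs) hst (ht.trans hr)

theorem glue {a b : ℝ} (h : a < b) {φ : ℝ → ℝ} {Φ : Y} {F : CC a b} (hΦ : ClosedStep h.le φ Φ)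
    {q m r : ℚ} (hq : 0 ≤ q) (hr : r ≤ 1)
    (h1 : Good a b Φ (ex h.le F) q m) (h2 : Good a b Φ (ex h.le F) m r) :
    Good a b Φ (ex h.le F) q r := by
  intro q' r' hq' hqr' hr'
  by_cases h3 : r' ≤ m
  · exact h1 q' r' hq' hqr' h3
  by_cases h4 : m ≤ q'
  · exact h2 q' r' h4 hqr' hr'
  rw [not_le] at h3 h4
  refine hΦ F (fun _ => pt a b m) q' r' ⟨⟨hq.trans hq', hqr', hr'.trans hr⟩,
    fun _ => ⟨((pt_lt h).2 h4).le, ((pt_lt h).2 h3).le⟩, ?_, ?_⟩ ?_
  · intro k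
    refine ⟨0, fun n i j u v h5 _ _ _ => ?_⟩
    rcases Nat.eq_zero_or_pos n with rfl | hn
    · simp only [Finset.univ_eq_empty, Finset.sum_empty]
      positivity
    · exact absurd (h5 ⟨0, hn⟩) (lt_irrefl _)
  · rintro q'' r'' hq'' hqr'' hr'' ⟨n, hn⟩
    have hpos : (0 : ℝ) < 1 / ((n : ℝ) + 1) := by positivity
    rcases hn 0 with h5 | h5
    · have h6 : m < q'' := (pt_lt h).1 (by linarith)
      exact h2 q'' r'' h6.le hqr'' (hr''.trans hr')
    · have h6 : r'' < m := (pt_lt h).1 (by linarith)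
      exact h1 q'' r'' (hq'.trans hq'') hqr'' h6.le
  · have h7 : ∀ᵐ x ∂(volume.restrict (Icc a b)), x ≠ pt a b m :=
      ae_restrict_of_ae (by
        have : volume ({pt a b m} : Set ℝ) = 0 := measure_singleton _
        simpa [ae_iff] using this)
    filter_upwards [h7] with x hx hx'
    rw [range_const, closure_singleton] at hx'
    exact absurd hx' hx

end Comp

open Comp in
theorem taskComp : TaskComp := by
  intro a b h φ Φ F hΦ q r hq hqr hr hsub
  -- the rational points up to which the interval is good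
  set S : Set ℝ := {x | ∃ s : ℚ, q < s ∧ s ≤ r ∧ Good a b Φ (ex h.le F) q s ∧ x = pt a b s} with hS
  have hSle : ∀ x ∈ S, x ≤ pt a b r := by
    rintro x ⟨s, -, hs, -, rfl⟩
    exact (pt_le h).2 hs
  have hbdd : BddAbove S := ⟨pt a b r, hSle⟩
  have hne : S.Nonempty := by
    obtain ⟨-, q₁, r₁, h0, h1, h2, h3, -, h5, h6, -⟩ :=
      hsub (left_mem_Icc.2 ((pt_lt h).2 hqr).le)
    have hq1 : q₁ ≤ q := (pt_le h).1 h5
    have hr1 : q < r₁ := by
      rcases h6 with h6 | h6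
      · exact (pt_lt h).1 h6
      · rw [h6]; exact hqr.trans_le hr
    exact ⟨_, min r₁ r, lt_min hr1 hqr, min_le_right _ _, Good.mono h3 hq1 (min_le_left _ _), rfl⟩
  set x := sSup S with hx
  have hxr : x ≤ pt a b r := csSup_le hne hSle
  have hqx : pt a b q ≤ x := by
    obtain ⟨y, hy⟩ := hne
    obtain ⟨s, hs, -, -, rfl⟩ := id hy
    exact ((pt_lt h).2 hs).le.trans (le_csSup hbdd hy)
  obtain ⟨-, q₁, r₁, h0, h1, h2, h3, h4, h5, h6, h7⟩ := hsub ⟨hqx, hxr⟩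
  obtain ⟨s, hqs, hsr, hgs, hs1⟩ : ∃ s : ℚ, q < s ∧ s ≤ r ∧ Good a b Φ (ex h.le F) q s ∧ q₁ ≤ s := by
    rcases h4 with h4 | h4
    · obtain ⟨y, ⟨s, hs1, hs2, hs3, rfl⟩, hy⟩ := exists_lt_of_lt_csSup hne h4
      exact ⟨s, hs1, hs2, hs3, ((pt_lt h).1 hy).le⟩
    · obtain ⟨y, s, hs1, hs2, hs3, rfl⟩ := hne
      exact ⟨s, hs1, hs2, hs3, by rw [h4]; exact hq.trans hs1.le⟩
  have hsr1 : s ≤ r₁ := (pt_le h).1 ((le_csSup hbdd ⟨s, hqs, hsr, hgs, rfl⟩).trans h7)
  have hgood : Good a b Φ (ex h.le F) q (min r₁ r) :=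
    glue h hΦ hq ((min_le_right _ _).trans hr) hgs (Good.mono h3 hs1 (min_le_left _ _))
  rcases le_or_gt r r₁ with h8 | h8
  · rwa [min_eq_right h8] at hgood
  · exfalso
    rw [min_eq_left h8.le] at hgood
    have h9 : pt a b r₁ ≤ x :=
      le_csSup hbdd ⟨r₁, hqs.trans_le hsr1, h8.le, hgood, rfl⟩
    rcases h6 with h6 | h6
    · exact absurd h6 (not_lt.2 h9)
    · rw [h6] at h8
      exact absurd hr (not_le.2 h8)

end Pool.Agent.Q302.DJ
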