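import Mathlib
import Pool.Agent.Q302.DJ.Stmts

set_option autoImplicit false

namespace Pool.Agent.Q302.DJ.Conv

open MeasureTheory Set Filter Topology Pool.Agent.Q302.DJ

theorem meas {a b : ℝ} (f : M a b) : Measurable f.rep :=
  (show ℝ →ₘ[volume.restrict (Icc a b)] ℝ from f).measurable

theorem integ {a b : ℝ} (f g : M a b) :
    Integrable (fun x => min 1 |f.rep x - g.rep x|) (volume.restrict (Icc a b)) := by
  refine Integrable.of_bound (C := 1) ?_ ?_
  · exact (measurable_const.min ((meas f).sub (meas g)).abs).aestronglyMeasurable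
  · filter_upwards with x
    rw [Real.norm_eq_abs, abs_of_nonneg (le_min zero_le_one (abs_nonneg _))]
    exact min_le_left _ _

theorem conv_iff (a b : ℝ) (u : ℕ → M a b) (f : M a b) :
    Tendsto (fun n => dM (u n) f) atTop (𝓝 0) ↔
      TendstoInMeasure (volume.restrict (Icc a b)) (fun n => (u n).rep) atTop f.rep := by
  rw [tendstoInMeasure_iff_measureReal_norm]
  have hnn : ∀ n x, 0 ≤ min 1 |(u n).rep x - f.rep x| := fun n x =>
    le_min zero_le_one (abs_nonneg _)
  constructor
  · intro h ε hε
    have hm : 0 < min 1 ε := lt_min one_pos hε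
    have h2 : Tendsto (fun n => (min 1 ε)⁻¹ * dM (u n) f) atTop (𝓝 0) := by
      simpa using h.const_mul (min 1 ε)⁻¹
    refine squeeze_zero (fun n => measureReal_nonneg) (fun n => ?_) h2
    have h3 := mul_meas_ge_le_integral_of_nonneg
      (μ := volume.restrict (Icc a b)) (f := fun x => min 1 |(u n).rep x - f.rep x|)
      (Filter.Eventually.of_forall (hnn n)) (integ (u n) f) (min 1 ε)
    have h4 : (volume.restrict (Icc a b)).real {x | ε ≤ ‖(u n).rep x - f.rep x‖} ≤
        (volume.restrict (Icc a b)).real {x | min 1 ε ≤ min 1 |(u n).rep x - f.rep x|} := by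
      apply measureReal_mono
      · intro x hx
        have hx' : ε ≤ |(u n).rep x - f.rep x| := hx
        exact min_le_min le_rfl hx'
      · exact measure_ne_top _ _
    rw [le_inv_mul_iff₀ hm]
    exact (mul_le_mul_of_nonneg_left h4 hm.le).trans h3
  · intro h
    rw [Metric.tendsto_atTop]
    intro ε hε
    set c : ℝ := (volume.restrict (Icc a b)).real univ with hc
    have hc0 : 0 ≤ c := measureReal_nonneg
    set η : ℝ := ε / (2 * (c + 1)) with hη
    have hη0 : 0 < η := by positivity
    have h1 := h η hη0
    rw [Metric.tendsto_atTop] at h1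
    obtain ⟨N, hN⟩ := h1 (ε / 2) (by positivity)
    refine ⟨N, fun n hn => ?_⟩
    have h2 := hN n hn
    rw [Real.dist_eq, sub_zero] at h2 ⊢
    rw [abs_of_nonneg measureReal_nonneg] at h2
    have hS : MeasurableSet {x | η ≤ ‖(u n).rep x - f.rep x‖} :=
      measurableSet_le measurable_const ((meas (u n)).sub (meas f)).norm
    have h3 : dM (u n) f ≤ η * c + (volume.restrict (Icc a b)).real
        {x | η ≤ ‖(u n).rep x - f.rep x‖} := by
      have e : ∫ x in Icc a b, (η + {x | η ≤ ‖(u n).rep x - f.rep x‖}.indicator (fun _ => (1 : ℝ)) x)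
          = η * c + (volume.restrict (Icc a b)).real {x | η ≤ ‖(u n).rep x - f.rep x‖} := by
        rw [integral_add (integrable_const _) ((integrable_const _).indicator hS),
          integral_const, integral_indicator_const _ hS]
        simp [hc, mul_comm]
      rw [← e]
      apply integral_mono (integ (u n) f)
      · exact (integrable_const _).add ((integrable_const _).indicator hS)
      · intro x
        by_cases hx : η ≤ ‖(u n).rep x - f.rep x‖
        · have : {x | η ≤ ‖(u n).rep x - f.rep x‖}.indicator (fun _ => (1 : ℝ)) x = 1 :=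
            indicator_of_mem (by exact hx) _
          simp only [this]
          exact (min_le_left _ _).trans (by linarith)
        · have : {x | η ≤ ‖(u n).rep x - f.rep x‖}.indicator (fun _ => (1 : ℝ)) x = 0 :=
            indicator_of_notMem (by exact hx) _
          simp only [this]
          refine (min_le_right _ _).trans ?_
          rw [add_zero]
          exact (not_le.1 hx).le
    have h0 : 0 ≤ dM (u n) f := integral_nonneg (hnn n)
    rw [abs_of_nonneg h0]
    have h4 : η * c ≤ ε / 2 := by
      rw [hη, div_mul_eq_mul_div, div_le_div_iff₀ (by positivity) (by positivity)]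
      nlinarith
    linarith

end Pool.Agent.Q302.DJ.Conv
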