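import Pool.Agent.Q302.DJ.Stmts

set_option autoImplicit false

namespace Pool.Agent.Q302.DJ.TaskCont

open MeasureTheory Set Filter Topology Pool.Agent.Q302.DJ

theorem tri_real (x y z : ℝ) : min 1 |x - z| ≤ min 1 |x - y| + min 1 |y - z| := by
  have h0 := abs_sub_le x y z
  have h1 := abs_nonneg (x - y)
  have h2 := abs_nonneg (y - z)
  rcases le_total 1 |x - y| with h3 | h3
  · rw [min_eq_left h3]
    have : 0 ≤ min 1 |y - z| := le_min zero_le_one h2
    linarith [min_le_left (1 : ℝ) |x - z|]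
  · rcases le_total 1 |y - z| with h4 | h4
    · rw [min_eq_left h4]
      have : 0 ≤ min 1 |x - y| := le_min zero_le_one h1
      linarith [min_le_left (1 : ℝ) |x - z|]
    · rw [min_eq_right h3, min_eq_right h4]
      exact (min_le_right _ _).trans h0

theorem meas_min {u v : ℝ → ℝ} (hu : Measurable u) (hv : Measurable v) :
    Measurable fun x => min 1 |u x - v x| :=
  measurable_const.min (hu.sub hv).abs

theorem bound_min (x y : ℝ) : ‖min 1 |x - y|‖ ≤ 1 := by
  rw [Real.norm_eq_abs, abs_of_nonneg (le_min zero_le_one (abs_nonneg _))]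
  exact min_le_left _ _

theorem int_min {a b : ℝ} {u v : ℝ → ℝ} (hu : Measurable u) (hv : Measurable v) :
    Integrable (fun x => min 1 |u x - v x|) (volume.restrict (Icc a b)) :=
  Integrable.of_bound (meas_min hu hv).aestronglyMeasurable 1
    (Eventually.of_forall fun x => bound_min _ _)

theorem tri {a b : ℝ} {u v w : ℝ → ℝ} (hu : Measurable u) (hv : Measurable v)
    (hw : Measurable w) : ∫ x in Icc a b, min 1 |u x - w x| ≤
      (∫ x in Icc a b, min 1 |u x - v x|) + ∫ x in Icc a b, min 1 |v x - w x| := by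
  rw [← integral_add (int_min hu hv) (int_min hv hw)]
  exact integral_mono (int_min hu hw) ((int_min hu hv).add (int_min hv hw))
    fun x => tri_real _ _ _

theorem meas_ex {a b : ℝ} (h : a ≤ b) (u : CC a b) : Measurable (ex h u) :=
  (u.continuous.Icc_extend' (h := h)).measurable

theorem steps {a b : ℝ} (h : a ≤ b) (g : ℕ → CC a b) (hg : Fast h g) (N k : ℕ) :
    ∫ x in Icc a b, min 1 |ex h (g N) x - ex h (g (k + N)) x| ≤
      2 * (1 / 2 : ℝ) ^ N - 2 * (1 / 2 : ℝ) ^ (k + N) := by
  induction k with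
  | zero => simp
  | succ k ih =>
    have h1 := tri (a := a) (b := b) (meas_ex h (g N)) (meas_ex h (g (k + N)))
      (meas_ex h (g (k + 1 + N)))
    have h2 := hg (k + N)
    have e : k + 1 + N = k + N + 1 := by omega
    rw [e] at h1 ⊢
    have h3 : (1 / 2 : ℝ) ^ (k + N + 1) = (1 / 2 : ℝ) ^ (k + N) * (1 / 2) := pow_succ _ _
    linarith

theorem toLim {a b : ℝ} (h : a ≤ b) (g : ℕ → CC a b) (hg : Fast h g) {φ : ℝ → ℝ}
    (hl : LimIs h g φ) (N : ℕ) :
    ∫ x in Icc a b, min 1 |ex h (g N) x - φ x| ≤ 2 * (1 / 2 : ℝ) ^ N := by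
  have ht : Tendsto (fun k : ℕ => ∫ x in Icc a b, min 1 |ex h (g N) x - ex h (g (k + N)) x|)
      atTop (𝓝 (∫ x in Icc a b, min 1 |ex h (g N) x - φ x|)) := by
    refine tendsto_integral_of_dominated_convergence (fun _ => (1 : ℝ))
      (fun k => (meas_min (meas_ex h _) (meas_ex h _)).aestronglyMeasurable)
      (integrable_const _) (fun k => Eventually.of_forall fun x => bound_min _ _) ?_
    filter_upwards [hl] with x hx
    have h1 : Tendsto (fun k : ℕ => ex h (g (k + N)) x) atTop (𝓝 (φ x)) :=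
      (tendsto_add_atTop_iff_nat N).2 hx
    exact (tendsto_const_nhds (x := (1 : ℝ))).min ((tendsto_const_nhds.sub h1).abs)
  refine le_of_tendsto ht (Eventually.of_forall fun k => ?_)
  have h2 := steps h g hg N k
  have h3 : (0 : ℝ) ≤ 2 * (1 / 2 : ℝ) ^ (k + N) := by positivity
  linarith

theorem meas_rep {a b : ℝ} (f : M a b) : Measurable f.rep :=
  AEEqFun.measurable (show ℝ →ₘ[volume.restrict (Icc a b)] ℝ from f)

theorem main : Pool.Agent.Q302.DJ.TaskCont := by
  intro a b h g hg ε hε
  obtain ⟨N, hN⟩ := exists_pow_lt_of_lt_one (show (0 : ℝ) < ε / 8 by positivity)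
    (show (1 / 2 : ℝ) < 1 by norm_num)
  have hba : 0 ≤ b - a := sub_nonneg.2 h
  have hD : 0 < ε / (2 * (b - a + 1)) := by positivity
  refine ⟨N, ε / (2 * (b - a + 1)), hD, fun g' hg' hd f f' hf hf' => ?_⟩
  have h1 := toLim h g hg hf N
  have h2 := toLim h g' hg' hf' N
  have h3 : ∫ x in Icc a b, min 1 |ex h (g N) x - ex h (g' N) x| ≤
      ε / (2 * (b - a + 1)) * (b - a) := by
    have h4 : ∫ x in Icc a b, min 1 |ex h (g N) x - ex h (g' N) x| ≤
        ∫ x in Icc a b, ε / (2 * (b - a + 1)) := by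
      refine integral_mono (int_min (meas_ex h _) (meas_ex h _)) (integrable_const _) fun x => ?_
      refine (min_le_right _ _).trans ?_
      have h5 : |ex h (g N) x - ex h (g' N) x| ≤ dist (g N) (g' N) := by
        rw [← Real.dist_eq]
        exact ContinuousMap.dist_apply_le_dist _
      exact h5.trans hd.le
    refine h4.trans (le_of_eq ?_)
    rw [setIntegral_const]
    simp [Real.volume_real_Icc_of_le h, mul_comm]
  have h6 : ε / (2 * (b - a + 1)) * (b - a) ≤ ε / 2 := by
    rw [div_mul_eq_mul_div, div_le_div_iff₀ (by positivity) (by norm_num)]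
    nlinarith
  have h7 : dM f f' ≤ (∫ x in Icc a b, min 1 |f.rep x - ex h (g N) x|) +
      ((∫ x in Icc a b, min 1 |ex h (g N) x - ex h (g' N) x|) +
        ∫ x in Icc a b, min 1 |ex h (g' N) x - f'.rep x|) := by
    refine (tri (meas_rep f) (meas_ex h (g N)) (meas_rep f')).trans ?_
    have := tri (a := a) (b := b) (meas_ex h (g N)) (meas_ex h (g' N)) (meas_rep f')
    linarith
  have h8 : ∫ x in Icc a b, min 1 |f.rep x - ex h (g N) x| =
      ∫ x in Icc a b, min 1 |ex h (g N) x - f.rep x| := by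
    simp only [abs_sub_comm]
  rw [h8] at h7
  linarith

end Pool.Agent.Q302.DJ.TaskCont
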