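import Pool.Agent.Q302.DJ.Stmts

/-! MP_c24d14_lc, task Lim (helper204): fast sequences converge almost everywhere. -/

set_option autoImplicit false

namespace Pool.Agent.Q302.DJ

open MeasureTheory Set Filter Topology

theorem taskLim : TaskLim := by
  intro a b h g hg
  set μ : Measure ℝ := volume.restrict (Icc a b) with hμ
  have hcont : ∀ n, Continuous (ex h (g n)) := fun n => (g n).continuous.Icc_extend'
  have hdc : ∀ n, Continuous (fun x => min (1 : ℝ) |ex h (g n) x - ex h (g (n + 1)) x|) := fun n =>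
    continuous_const.min ((hcont n).sub (hcont (n + 1))).abs
  have hd0 : ∀ n x, 0 ≤ min (1 : ℝ) |ex h (g n) x - ex h (g (n + 1)) x| := fun n x =>
    le_min zero_le_one (abs_nonneg _)
  have hint : ∀ n, Integrable (fun x => min (1 : ℝ) |ex h (g n) x - ex h (g (n + 1)) x|) μ := by
    intro n
    exact (hdc n).continuousOn.integrableOn_compact isCompact_Icc
  have hl : ∀ n, ∫⁻ x, ENNReal.ofReal (min (1 : ℝ) |ex h (g n) x - ex h (g (n + 1)) x|) ∂μ ≤
      ENNReal.ofReal ((1 / 2 : ℝ) ^ n) := by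
    intro n
    rw [← ofReal_integral_eq_lintegral_ofReal (hint n) (Eventually.of_forall (hd0 n))]
    exact ENNReal.ofReal_le_ofReal (hg n)
  have hsum : ∫⁻ x, ∑' n, ENNReal.ofReal (min (1 : ℝ) |ex h (g n) x - ex h (g (n + 1)) x|) ∂μ ≠ ⊤ := by
    rw [lintegral_tsum (fun n => ((hdc n).measurable.ennreal_ofReal).aemeasurable)]
    refine ne_top_of_le_ne_top ?_ (ENNReal.tsum_le_tsum hl)
    rw [← ENNReal.ofReal_tsum_of_nonneg (fun n => by positivity)
      (summable_geometric_of_lt_one (by norm_num) (by norm_num))]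
    exact ENNReal.ofReal_ne_top
  have hae : ∀ᵐ x ∂μ, ∑' n, ENNReal.ofReal (min (1 : ℝ) |ex h (g n) x - ex h (g (n + 1)) x|) < ⊤ := by
    refine ae_lt_top' ?_ hsum
    exact (Measurable.ennreal_tsum fun n => (hdc n).measurable.ennreal_ofReal).aemeasurable
  have hlim : ∀ᵐ x ∂μ, ∃ l, Tendsto (fun n => ex h (g n) x) atTop (𝓝 l) := by
    filter_upwards [hae] with x hx
    have hs : Summable (fun n => min (1 : ℝ) |ex h (g n) x - ex h (g (n + 1)) x|) := by
      have h1 := ENNReal.summable_toReal hx.ne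
      refine h1.congr fun n => ?_
      exact ENNReal.toReal_ofReal (hd0 n x)
    have hev : ∀ᶠ n in atTop, min (1 : ℝ) |ex h (g n) x - ex h (g (n + 1)) x| < 1 :=
      hs.tendsto_atTop_zero.eventually_lt_const one_pos
    have hs2 : Summable (fun n => dist (ex h (g n) x) (ex h (g (n + 1)) x)) := by
      refine hs.congr_atTop ?_
      filter_upwards [hev] with n hn
      rw [Real.dist_eq]
      rcases min_lt_iff.mp hn with h1 | h1
      · exact absurd h1 (lt_irrefl _)
      · exact min_eq_right h1.le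
    exact cauchySeq_tendsto_of_complete (cauchySeq_of_summable_dist hs2)
  obtain ⟨F, hF, hFlim⟩ := measurable_limit_of_tendsto_metrizable_ae
    (fun n => (hcont n).measurable.aemeasurable) hlim
  refine ⟨(AEEqFun.mk F hF.aestronglyMeasurable : ℝ →ₘ[volume.restrict (Icc a b)] ℝ), ?_⟩
  have hrep : (M.rep (a := a) (b := b)
      (AEEqFun.mk F hF.aestronglyMeasurable : ℝ →ₘ[volume.restrict (Icc a b)] ℝ)) =ᵐ[μ] F :=
    AEEqFun.coeFn_mk F hF.aestronglyMeasurable
  filter_upwards [hFlim, hrep] with x hx hr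
  rw [hr]
  exact hx

end Pool.Agent.Q302.DJ
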