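import Pool.Agent.Q302.DJ.Stmts

set_option autoImplicit false

open MeasureTheory Set Filter Topology

namespace Pool.Agent.Q302.DJ.TaskMetric

open Pool.Agent.Q302.DJ

private lemma meas {a b : ℝ} (f : M a b) :
    AEStronglyMeasurable f.rep (volume.restrict (Icc a b)) :=
  AEEqFun.aestronglyMeasurable (show ℝ →ₘ[volume.restrict (Icc a b)] ℝ from f)

private lemma integ {a b : ℝ} (f g : M a b) :
    Integrable (fun x => min 1 |f.rep x - g.rep x|) (volume.restrict (Icc a b)) := by
  have h1 : AEStronglyMeasurable (fun x => min 1 |f.rep x - g.rep x|) (volume.restrict (Icc a b)) := by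
    have h2 : AEMeasurable (fun x => |f.rep x - g.rep x|) (volume.restrict (Icc a b)) := by
      have := ((meas f).sub (meas g)).norm.aemeasurable
      simpa [Real.norm_eq_abs] using this
    exact (aemeasurable_const.min h2).aestronglyMeasurable
  refine Integrable.of_bound h1 1 (Eventually.of_forall fun x => ?_)
  rw [Real.norm_eq_abs, abs_of_nonneg (le_min zero_le_one (abs_nonneg _))]
  exact min_le_left _ _

theorem main : Pool.Agent.Q302.DJ.TaskMetric := by
  intro a b
  refine ⟨fun f => ?_, fun f g => ?_, fun f g h => ?_, fun f g h0 => ?_⟩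
  · unfold dM
    simp
  · unfold dM
    simp_rw [abs_sub_comm]
  · unfold dM
    rw [← integral_add (integ f g) (integ g h)]
    refine integral_mono (integ f h) ((integ f g).add (integ g h)) fun x => ?_
    change min 1 |f.rep x - h.rep x| ≤ min 1 |f.rep x - g.rep x| + min 1 |g.rep x - h.rep x|
    have h1 := abs_sub_le (f.rep x) (g.rep x) (h.rep x)
    rcases le_total 1 |f.rep x - g.rep x| with h2 | h2
    · rw [min_eq_left h2]
      have h3 : 0 ≤ min 1 |g.rep x - h.rep x| := le_min zero_le_one (abs_nonneg _)
      linarith [min_le_left 1 |f.rep x - h.rep x|]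
    · rw [min_eq_right h2]
      rcases le_total 1 |g.rep x - h.rep x| with h3 | h3
      · rw [min_eq_left h3]
        linarith [min_le_left 1 |f.rep x - h.rep x|, abs_nonneg (f.rep x - g.rep x)]
      · rw [min_eq_right h3]
        linarith [min_le_right 1 |f.rep x - h.rep x|]
  · unfold dM at h0
    have h1 := (integral_eq_zero_iff_of_nonneg
      (fun x => le_min zero_le_one (abs_nonneg _)) (integ f g)).1 h0
    have h2 : f.rep =ᵐ[volume.restrict (Icc a b)] g.rep := by
      filter_upwards [h1] with x hx
      have hx' : min 1 |f.rep x - g.rep x| = 0 := hx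
      rcases min_choice 1 |f.rep x - g.rep x| with h3 | h3
      · rw [h3] at hx'
        norm_num at hx'
      · rw [h3] at hx'
        exact sub_eq_zero.1 (abs_eq_zero.1 hx')
    exact AEEqFun.ext h2

end Pool.Agent.Q302.DJ.TaskMetric
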