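import Pool.Agent.Q302.DJ.Stmts

set_option autoImplicit false

open MeasureTheory Set Filter Topology

namespace Pool.Agent.Q302.DJ.TaskSurj

open Pool.Agent.Q302.DJ

section

variable {μ : Measure ℝ} [IsFiniteMeasure μ]

theorem int_min {u v : ℝ → ℝ} (hu : AEStronglyMeasurable u μ) (hv : AEStronglyMeasurable v μ) :
    Integrable (fun x => min 1 |u x - v x|) μ := by
  refine Integrable.of_bound (C := 1) ?_ ?_
  · have h1 : AEStronglyMeasurable (fun x => |u x - v x|) μ := by
      have := (hu.sub hv).norm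
      exact this
    exact aestronglyMeasurable_const.inf h1
  · refine Eventually.of_forall fun x => ?_
    rw [Real.norm_eq_abs, abs_of_nonneg (le_min zero_le_one (abs_nonneg _))]
    exact min_le_left _ _

theorem tri (x y z : ℝ) : min 1 |x - z| ≤ min 1 |x - y| + min 1 |y - z| := by
  have h := abs_sub_le x y z
  rcases le_total 1 |x - y| with h1 | h1
  · rw [min_eq_left h1]
    have : 0 ≤ min 1 |y - z| := le_min zero_le_one (abs_nonneg _)
    have := min_le_left 1 |x - z|
    linarith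
  · rcases le_total 1 |y - z| with h2 | h2
    · rw [min_eq_left h2]
      have : 0 ≤ min 1 |x - y| := le_min zero_le_one (abs_nonneg _)
      have := min_le_left 1 |x - z|
      linarith
    · rw [min_eq_right h1, min_eq_right h2]
      exact (min_le_right _ _).trans h

theorem int_tri {u v w : ℝ → ℝ} (hu : AEStronglyMeasurable u μ) (hv : AEStronglyMeasurable v μ)
    (hw : AEStronglyMeasurable w μ) :
    ∫ x, min 1 |u x - w x| ∂μ ≤ ∫ x, min 1 |u x - v x| ∂μ + ∫ x, min 1 |v x - w x| ∂μ := by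
  rw [← integral_add (int_min hu hv) (int_min hv hw)]
  exact integral_mono (int_min hu hw) ((int_min hu hv).add (int_min hv hw)) fun x => tri _ _ _

theorem trunc {φ : ℝ → ℝ} (hφ : AEStronglyMeasurable φ μ) {ε : ℝ} (hε : 0 < ε) :
    ∃ ψ : ℝ → ℝ, Integrable ψ μ ∧ ∫ x, min 1 |ψ x - φ x| ∂μ ≤ ε := by
  have hm : ∀ N : ℕ, AEStronglyMeasurable (fun x => max (-(N : ℝ)) (min (N : ℝ) (φ x))) μ :=
    fun N => aestronglyMeasurable_const.sup (aestronglyMeasurable_const.inf hφ)
  have hlim : Tendsto (fun N : ℕ => ∫ x, min 1 |max (-(N : ℝ)) (min (N : ℝ) (φ x)) - φ x| ∂μ)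
      atTop (𝓝 (∫ _x : ℝ, (0 : ℝ) ∂μ)) := by
    refine tendsto_integral_of_dominated_convergence (fun _ => 1) (fun N => ?_)
      (integrable_const _) (fun N => ?_) ?_
    · exact (int_min (hm N) hφ).aestronglyMeasurable
    · refine Eventually.of_forall fun x => ?_
      rw [Real.norm_eq_abs, abs_of_nonneg (le_min zero_le_one (abs_nonneg _))]
      exact min_le_left _ _
    · refine Eventually.of_forall fun x => ?_
      refine tendsto_const_nhds.congr' ?_
      obtain ⟨N0, hN0⟩ := exists_nat_ge |φ x|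
      filter_upwards [eventually_ge_atTop N0] with N hN
      have h1 : |φ x| ≤ N := hN0.trans (by exact_mod_cast hN)
      have h2 := abs_le.mp h1
      rw [min_eq_right h2.2, max_eq_right h2.1, sub_self, abs_zero]
      simp
  rw [integral_zero] at hlim
  obtain ⟨N, hN⟩ := (hlim.eventually (gt_mem_nhds hε)).exists
  refine ⟨fun x => max (-(N : ℝ)) (min (N : ℝ) (φ x)), ?_, hN.le⟩
  refine Integrable.of_bound (C := N) (hm N) (Eventually.of_forall fun x => ?_)
  rw [Real.norm_eq_abs, abs_le]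
  constructor
  · exact le_max_left _ _
  · refine max_le ?_ (min_le_left _ _)
    have : (0 : ℝ) ≤ N := Nat.cast_nonneg _
    linarith

theorem approx {φ : ℝ → ℝ} (hφ : AEStronglyMeasurable φ μ) {ε : ℝ} (hε : 0 < ε) :
    ∃ g : ℝ → ℝ, Continuous g ∧ ∫ x, min 1 |g x - φ x| ∂μ ≤ ε := by
  obtain ⟨ψ, hψ, h1⟩ := trunc hφ (half_pos hε)
  obtain ⟨g, _, h2, h3, h4⟩ := hψ.exists_hasCompactSupport_integral_sub_le (half_pos hε)
  refine ⟨g, h3, ?_⟩
  have h5 := int_tri (μ := μ) h4.aestronglyMeasurable hψ.aestronglyMeasurable hφ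
  have h6 : ∫ x, min 1 |g x - ψ x| ∂μ ≤ ∫ x, ‖ψ x - g x‖ ∂μ := by
    refine integral_mono (int_min h4.aestronglyMeasurable hψ.aestronglyMeasurable)
      (hψ.sub h4).norm fun x => ?_
    have : ‖ψ x - g x‖ = |g x - ψ x| := by rw [Real.norm_eq_abs, abs_sub_comm]
    change min 1 |g x - ψ x| ≤ ‖ψ x - g x‖
    rw [this]
    exact min_le_right _ _
  linarith

theorem conv {φ : ℝ → ℝ} (hφ : AEStronglyMeasurable φ μ) (G : ℕ → ℝ → ℝ)
    (hG : ∀ n, AEStronglyMeasurable (G n) μ)
    (h : ∀ n, ∫ x, min 1 |G n x - φ x| ∂μ ≤ (1 / 2 : ℝ) ^ (n + 2)) :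
    ∀ᵐ x ∂μ, Tendsto (fun n => G n x) atTop (𝓝 (φ x)) := by
  have h1 : ∀ n, AEMeasurable (fun x => ENNReal.ofReal (min 1 |G n x - φ x|)) μ := fun n =>
    (int_min (hG n) hφ).aestronglyMeasurable.aemeasurable.ennreal_ofReal
  have h2 : ∫⁻ x, ∑' n, ENNReal.ofReal (min 1 |G n x - φ x|) ∂μ ≠ ⊤ := by
    rw [lintegral_tsum h1]
    have h3 : ∀ n, ∫⁻ x, ENNReal.ofReal (min 1 |G n x - φ x|) ∂μ ≤
        ENNReal.ofReal ((1 / 2 : ℝ) ^ (n + 2)) := by
      intro n
      rw [← ofReal_integral_eq_lintegral_ofReal (int_min (hG n) hφ)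
        (Eventually.of_forall fun x => le_min zero_le_one (abs_nonneg _))]
      exact ENNReal.ofReal_le_ofReal (h n)
    have h4 : Summable fun n : ℕ => (1 / 2 : ℝ) ^ (n + 2) := by
      have := (summable_geometric_of_lt_one (by norm_num : (0 : ℝ) ≤ 1 / 2) (by norm_num))
      exact (summable_nat_add_iff 2).mpr this
    exact ne_top_of_le_ne_top h4.tsum_ofReal_ne_top (ENNReal.tsum_le_tsum h3)
  have h3 := ae_lt_top' (AEMeasurable.ennreal_tsum h1) h2
  filter_upwards [h3] with x hx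
  have h4 := ENNReal.tendsto_atTop_zero_of_tsum_ne_top hx.ne
  have h5 : Tendsto (fun n => min 1 |G n x - φ x|) atTop (𝓝 0) := by
    have h6 := (ENNReal.tendsto_toReal ENNReal.zero_ne_top).comp h4
    rw [ENNReal.toReal_zero] at h6
    refine h6.congr fun n => ?_
    simp only [Function.comp]
    exact ENNReal.toReal_ofReal (le_min zero_le_one (abs_nonneg _))
  have h7 : Tendsto (fun n => |G n x - φ x|) atTop (𝓝 0) := by
    refine h5.congr' ?_
    filter_upwards [h5.eventually (gt_mem_nhds one_pos)] with n hn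
    rcases le_total 1 |G n x - φ x| with h8 | h8
    · rw [min_eq_left h8] at hn
      exact absurd hn (lt_irrefl _)
    · exact min_eq_right h8
  rw [tendsto_iff_norm_sub_tendsto_zero]
  exact h7

end

theorem main : Pool.Agent.Q302.DJ.TaskSurj := by
  intro a b h f
  have hφ : AEStronglyMeasurable f.rep (volume.restrict (Icc a b)) :=
    AEEqFun.aestronglyMeasurable _
  have hex : ∀ n : ℕ, ∃ g : ℝ → ℝ, Continuous g ∧
      ∫ x in Icc a b, min 1 |g x - f.rep x| ≤ (1 / 2 : ℝ) ^ (n + 2) :=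
    fun n => approx hφ (by positivity)
  choose G hGc hG using hex
  let g : ℕ → CC a b := fun n => ⟨fun x => G n x, (hGc n).comp continuous_subtype_val⟩
  have hgc : ∀ n, Continuous (ex h (g n)) := fun n => (g n).continuous.Icc_extend'
  have hg : ∀ n, ∀ x ∈ Icc a b, ex h (g n) x = G n x := by
    intro n x hx
    unfold ex
    rw [IccExtend_of_mem h (g n) hx]
    rfl
  have hI : ∀ n, ∫ x in Icc a b, min 1 |ex h (g n) x - f.rep x| ≤ (1 / 2 : ℝ) ^ (n + 2) := by
    intro n
    refine (le_of_eq ?_).trans (hG n)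
    refine setIntegral_congr_fun measurableSet_Icc fun x hx => ?_
    simp only [hg n x hx]
  refine ⟨g, fun n => ?_, ?_⟩
  · have h1 := int_tri (μ := volume.restrict (Icc a b)) (hgc n).aestronglyMeasurable hφ
      (hgc (n + 1)).aestronglyMeasurable
    have h2 : ∫ x in Icc a b, min 1 |f.rep x - ex h (g (n + 1)) x| =
        ∫ x in Icc a b, min 1 |ex h (g (n + 1)) x - f.rep x| := by
      congr 1
      ext x
      rw [abs_sub_comm]
    rw [h2] at h1
    have h3 := hI n
    have h4 := hI (n + 1)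
    have h5 : (1 / 2 : ℝ) ^ (n + 2) + (1 / 2 : ℝ) ^ (n + 1 + 2) ≤ (1 / 2 : ℝ) ^ n := by
      have : (0 : ℝ) < (1 / 2 : ℝ) ^ n := by positivity
      rw [pow_add, pow_add, pow_add]
      norm_num
      linarith
    linarith
  · exact conv hφ _ (fun n => (hgc n).aestronglyMeasurable) hI

end Pool.Agent.Q302.DJ.TaskSurj
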