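import Mathlib
import Pool.Agent.Q302.DJ.Asm
import Pool.Agent.Q302.DJ.TaskMetric
import Pool.Agent.Q302.DJ.TaskLim
import Pool.Agent.Q302.DJ.TaskSurj
import Pool.Agent.Q302.DJ.TaskCont

set_option autoImplicit false

namespace Pool.Agent.Q302.DJ.Polish

open MeasureTheory Set Filter Topology Pool.Agent.Q302.DJ

theorem meas {a b : ℝ} (f : M a b) : Measurable f.rep := TaskCont.meas_rep f

/-- approximation by the restriction of a continuous function -/
theorem approxCC {a b : ℝ} (h : a ≤ b) (f : M a b) {ε : ℝ} (hε : 0 < ε) :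
    ∃ g : CC a b, ∫ x in Icc a b, min 1 |ex h g x - f.rep x| ≤ ε := by
  obtain ⟨G, hG, hGe⟩ := TaskSurj.approx (μ := volume.restrict (Icc a b)) (φ := f.rep)
    (meas f).aestronglyMeasurable hε
  refine ⟨⟨fun x => G x, hG.comp continuous_subtype_val⟩, ?_⟩
  refine le_trans (le_of_eq ?_) hGe
  refine setIntegral_congr_fun measurableSet_Icc fun x hx => ?_
  have : ex h (⟨fun x => G x, hG.comp continuous_subtype_val⟩ : CC a b) x = G x := by
    unfold ex
    rw [IccExtend_of_mem h _ hx]
    rfl
  simp only [this]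

/-- the class of a continuous function -/
noncomputable def cl {a b : ℝ} (h : a ≤ b) (s : CC a b) : M a b :=
  (AEEqFun.mk (ex h s) (s.continuous.Icc_extend' (h := h)).aestronglyMeasurable :
    ℝ →ₘ[volume.restrict (Icc a b)] ℝ)

theorem cl_rep {a b : ℝ} (h : a ≤ b) (s : CC a b) :
    (cl h s).rep =ᵐ[volume.restrict (Icc a b)] ex h s :=
  AEEqFun.coeFn_mk _ _

theorem sup_bound {a b : ℝ} (h : a ≤ b) (s g : CC a b) :
    ∫ x in Icc a b, min 1 |ex h s x - ex h g x| ≤ (b - a) * dist s g := by
  have h1 : ∀ x, min 1 |ex h s x - ex h g x| ≤ dist s g := by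
    intro x
    refine (min_le_right _ _).trans ?_
    rw [← Real.dist_eq]
    exact ContinuousMap.dist_apply_le_dist _
  calc ∫ x in Icc a b, min 1 |ex h s x - ex h g x| ≤ ∫ _x in Icc a b, dist s g :=
        integral_mono (TaskCont.int_min (TaskCont.meas_ex h s) (TaskCont.meas_ex h g))
          (integrable_const _) h1
    _ = (b - a) * dist s g := by
        rw [integral_const, smul_eq_mul]
        congr 1
        simp [measureReal_restrict_apply, h]

theorem polish (a b : ℝ) (hab : a < b) :
    letI := metricM TaskMetric.main a b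
    PolishSpace (M a b) := by
  letI := metricM TaskMetric.main a b
  have hd : ∀ f g : M a b, dist f g = dM f g := fun _ _ => rfl
  haveI : CompleteSpace (M a b) := by
    refine Metric.complete_of_convergent_controlled_sequences (fun n => (1 / 2 : ℝ) ^ (n + 2))
      (fun n => by positivity) (fun u hu => ?_)
    have hex : ∀ n, ∃ g : CC a b, ∫ x in Icc a b, min 1 |ex hab.le g x - (u n).rep x| ≤
        (1 / 2 : ℝ) ^ (n + 2) := fun n => approxCC hab.le (u n) (by positivity)
    choose g hg using hex
    have hsym : ∀ (v w : ℝ → ℝ), ∫ x in Icc a b, min 1 |v x - w x| =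
        ∫ x in Icc a b, min 1 |w x - v x| := fun v w => by simp_rw [abs_sub_comm (v _)]
    have hF : Fast hab.le g := by
      intro n
      have h1 := TaskCont.tri (a := a) (b := b) (TaskCont.meas_ex hab.le (g n)) (meas (u n))
        (TaskCont.meas_ex hab.le (g (n + 1)))
      have h2 := TaskCont.tri (a := a) (b := b) (meas (u n)) (meas (u (n + 1)))
        (TaskCont.meas_ex hab.le (g (n + 1)))
      have h3 := hg n
      have h4 := hg (n + 1)
      have h5 : ∫ x in Icc a b, min 1 |(u n).rep x - (u (n + 1)).rep x| < (1 / 2 : ℝ) ^ (n + 2) :=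
        hu n n (n + 1) le_rfl (Nat.le_succ n)
      have h6 := hsym (u (n + 1)).rep (ex hab.le (g (n + 1)))
      have h7 : (1 / 2 : ℝ) ^ (n + 2) = (1 / 2 : ℝ) ^ n / 4 := by rw [pow_add]; ring
      have h8 : (1 / 2 : ℝ) ^ (n + 1 + 2) = (1 / 2 : ℝ) ^ n / 8 := by rw [pow_add, pow_add]; ring
      have h9 : (0 : ℝ) < (1 / 2 : ℝ) ^ n := by positivity
      rw [h7] at h3 h5
      rw [h8] at h4
      linarith
    obtain ⟨f, hf⟩ := taskLim a b hab.le g hF
    refine ⟨f, ?_⟩
    rw [tendsto_iff_dist_tendsto_zero]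
    have hb : ∀ n, dist (u n) f ≤ 3 * (1 / 2 : ℝ) ^ n := by
      intro n
      rw [hd]
      have h1 := TaskCont.tri (a := a) (b := b) (meas (u n)) (TaskCont.meas_ex hab.le (g n)) (meas f)
      have h2 := hsym (u n).rep (ex hab.le (g n))
      have h3 := hg n
      have h4 := TaskCont.toLim hab.le g hF hf n
      have h7 : (1 / 2 : ℝ) ^ (n + 2) = (1 / 2 : ℝ) ^ n / 4 := by rw [pow_add]; ring
      have h9 : (0 : ℝ) < (1 / 2 : ℝ) ^ n := by positivity
      rw [h7] at h3
      unfold dM
      linarith
    refine squeeze_zero (fun n => dist_nonneg) hb ?_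
    have := (tendsto_pow_atTop_nhds_zero_of_lt_one (by norm_num : (0 : ℝ) ≤ 1 / 2)
      (by norm_num : (1 / 2 : ℝ) < 1)).const_mul 3
    simpa using this
  haveI : TopologicalSpace.SeparableSpace (M a b) := by
    refine ⟨⟨Set.range fun k => cl hab.le (TopologicalSpace.denseSeq (CC a b) k),
      Set.countable_range _, fun f => ?_⟩⟩
    rw [Metric.mem_closure_iff]
    intro ε hε
    obtain ⟨g, hg⟩ := approxCC hab.le f (half_pos hε)
    have hba : 0 < b - a := sub_pos.2 hab
    obtain ⟨k, hk⟩ := (TopologicalSpace.denseRange_denseSeq (CC a b)).exists_dist_lt g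
      (show 0 < ε / (2 * (b - a)) by positivity)
    refine ⟨_, ⟨k, rfl⟩, ?_⟩
    rw [dist_comm, hd]
    set s := TopologicalSpace.denseSeq (CC a b) k with hs
    have h1 : dM (cl hab.le s) f = ∫ x in Icc a b, min 1 |ex hab.le s x - f.rep x| := by
      unfold dM
      refine integral_congr_ae ?_
      filter_upwards [cl_rep hab.le s] with x hx
      rw [hx]
    have h2 := TaskCont.tri (a := a) (b := b) (TaskCont.meas_ex hab.le s)
      (TaskCont.meas_ex hab.le g) (meas f)
    have h3 := sup_bound hab.le s g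
    have h4 : (b - a) * dist s g < ε / 2 := by
      rw [dist_comm] at hk
      calc (b - a) * dist s g < (b - a) * (ε / (2 * (b - a))) := by
            exact mul_lt_mul_of_pos_left hk hba
        _ = ε / 2 := by field_simp
    rw [h1]
    linarith
  haveI : SecondCountableTopology (M a b) := UniformSpace.secondCountable_of_separable _
  infer_instance

end Pool.Agent.Q302.DJ.Polish
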