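import Pool.Agent.Q302.DJ.Stmts

set_option autoImplicit false

open MeasureTheory Set Filter Topology

namespace Pool.Agent.Q302.DJ.TaskACc

open Pool.Agent.Q302.DJ

theorem le_osc (F : ℝ → ℝ) (hF : Continuous F) (c d u v : ℝ) (hu : u ∈ Icc c d)
    (hv : v ∈ Icc c d) : |F u - F v| ≤ osc F c d := by
  unfold osc
  apply le_csSup
  · exact (isCompact_Icc.prod isCompact_Icc).bddAbove_image
      (by fun_prop : Continuous fun z : ℝ × ℝ => |F z.1 - F z.2|).continuousOn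
  · exact ⟨(u, v), ⟨hu, hv⟩, rfl⟩

theorem main : Pool.Agent.Q302.DJ.TaskACc := by
  intro F K p hF hAC hp k
  obtain ⟨δ, hδ, h⟩ := hAC (1 / ((k : ℝ) + 1)) (by positivity)
  obtain ⟨m, hm⟩ := exists_nat_one_div_lt hδ
  refine ⟨m, fun n i j u v h1 h2 h3 h4 => ?_⟩
  have h5 := h n (fun l => p (i l)) (fun l => p (j l)) (fun l => ⟨hp _, hp _, h1 l⟩) (by
    intro l l' hl
    rw [Set.disjoint_left]
    rintro x ⟨a1, a2⟩ ⟨b1, b2⟩
    rcases h2 l l' hl with h | h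
    · linarith
    · linarith) (h4.trans hm)
  refine (Finset.sum_le_sum fun l _ => ?_).trans h5.le
  obtain ⟨c1, c2, c3, c4⟩ := h3 l
  exact le_osc F hF _ _ _ _ ⟨c1, c2⟩ ⟨c3, c4⟩

end Pool.Agent.Q302.DJ.TaskACc
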