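import Pool.Agent.Q302.DJ.Stmts

set_option autoImplicit false

/-! # The set of the pairs which are not witnesses is analytic -/

namespace Pool.Agent.Q302.DJ.TaskAn

open MeasureTheory Set Filter Topology Pool.Agent.Q302.DJ

instance polishCC (a b : ℝ) : PolishSpace (CC a b) := inferInstance

instance polishSeq (a b : ℝ) : PolishSpace (ℕ → CC a b) := inferInstance

instance polishY : PolishSpace Y := inferInstance

instance polishProd (a b : ℝ) : PolishSpace ((ℕ → CC a b) × Y) := inferInstance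

instance polishPair (a b : ℝ) : PolishSpace (CC a b × (ℕ → ℝ)) := inferInstance

instance polishAll (a b : ℝ) : PolishSpace (((ℕ → CC a b) × Y) × (CC a b × (ℕ → ℝ))) :=
  inferInstance

theorem analytic_of_borel {X : Type*} [TopologicalSpace X] [PolishSpace X] {s : Set X}
    (hs : @MeasurableSet X (borel X) s) : AnalyticSet s := by
  letI : MeasurableSpace X := borel X
  haveI : BorelSpace X := ⟨rfl⟩
  exact MeasurableSet.analyticSet hs

theorem borel_preimage {X Z : Type*} [TopologicalSpace X] [TopologicalSpace Z] {s : Set Z}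
    (hs : @MeasurableSet Z (borel Z) s) {f : X → Z} (hf : Continuous f) :
    @MeasurableSet X (borel X) (f ⁻¹' s) :=
  hf.borel_measurable hs

theorem main (hD : TaskMeasD) (hS : TaskMeasS) (hF : TaskFast) : Pool.Agent.Q302.DJ.TaskAn := by
  intro a b h
  let B : ℚ × ℚ → Set (((ℕ → CC a b) × Y) × (CC a b × (ℕ → ℝ))) := fun qr =>
    (fun z => (z.1.1, z.2.1, z.2.2)) ⁻¹'
        {z : (ℕ → CC a b) × CC a b × (ℕ → ℝ) | DerivG h.le z.1 (ex h.le z.2.1) z.2.2} ∩
      (fun z => (z.1.2, z.2.1, z.2.2)) ⁻¹'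
        {z : Y × CC a b × (ℕ → ℝ) | Step a b z.1 (ex h.le z.2.1) z.2.2 qr.1 qr.2 ∧
          ¬ Concl a b z.1 (ex h.le z.2.1) qr.1 qr.2}
  have hB : ∀ qr, AnalyticSet (B qr) := by
    intro qr
    apply analytic_of_borel
    exact @MeasurableSet.inter _ (borel _) _ _ (borel_preimage (hD a b h) (by fun_prop))
      (borel_preimage (hS a b h qr.1 qr.2) (by fun_prop))
  have hfast : AnalyticSet {z : (ℕ → CC a b) × Y | Fast h.le z.1} :=
    ((hF a b h.le).preimage continuous_fst).analyticSet
  have hbool : AnalyticSet {z : (ℕ → CC a b) × Y | (z.2 (0, 1)).2 = true} := by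
    have hc : Continuous fun z : (ℕ → CC a b) × Y => (z.2 (0, 1)).2 := by fun_prop
    exact ((isClosed_discrete ({true} : Set Bool)).preimage hc).analyticSet
  have hproj : AnalyticSet (⋃ qr, Prod.fst '' B qr) :=
    AnalyticSet.iUnion fun qr => (hB qr).image_of_continuous continuous_fst
  have hunion : AnalyticSet ({z : (ℕ → CC a b) × Y | (z.2 (0, 1)).2 = true} ∪
      ⋃ qr, Prod.fst '' B qr) := by
    rw [union_eq_iUnion]
    refine AnalyticSet.iUnion fun c => ?_
    cases c
    · exact hproj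
    · exact hbool
  have heq : NotWit h.le = {z : (ℕ → CC a b) × Y | Fast h.le z.1} ∩
      ({z : (ℕ → CC a b) × Y | (z.2 (0, 1)).2 = true} ∪ ⋃ qr, Prod.fst '' B qr) := by
    ext z
    simp only [NotWit, mem_ofPred_eq, mem_inter_iff, mem_union, mem_iUnion, mem_image]
    refine and_congr_right fun _ => or_congr_right ?_
    constructor
    · rintro ⟨F, p, q, r, h1, h2, h3⟩
      exact ⟨(q, r), (z, (F, p)), ⟨h1, h2, h3⟩, rfl⟩
    · rintro ⟨⟨q, r⟩, ⟨z', F, p⟩, ⟨h1, h2, h3⟩, rfl⟩
      exact ⟨F, p, q, r, h1, h2, h3⟩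
  rw [heq, inter_eq_iInter]
  refine AnalyticSet.iInter fun c => ?_
  cases c
  · exact hunion
  · exact hfast

end Pool.Agent.Q302.DJ.TaskAn
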