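import Pool.Agent.Q302.DJ.Stmts

set_option autoImplicit false

namespace Pool.Agent.Q302.DJ.TaskBaire

open MeasureTheory Set Filter Topology

lemma pt_le {a b : ℝ} (h : a < b) {q r : ℚ} (hqr : q ≤ r) : pt a b q ≤ pt a b r := by
  have h1 : (q : ℝ) ≤ r := by exact_mod_cast hqr
  have h2 : (b - a) * (q : ℝ) ≤ (b - a) * (r : ℝ) := mul_le_mul_of_nonneg_left h1 (by linarith)
  simp only [pt]
  linarith

lemma pt_zero (a b : ℝ) : pt a b 0 = a := by simp [pt]

lemma pt_one (a b : ℝ) : pt a b 1 = b := by simp [pt]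

lemma exists_left {t η : ℝ} (ht : 0 ≤ t) (hη : 0 < η) :
    ∃ q : ℚ, 0 ≤ q ∧ (q : ℝ) ≤ t ∧ t - η < q ∧ ((q : ℝ) < t ∨ q = 0) := by
  rcases ht.eq_or_lt with h0 | h0
  · refine ⟨0, le_rfl, by simpa using ht, ?_, Or.inr rfl⟩
    rw [← h0]
    simpa using hη
  · obtain ⟨q, h1, h2⟩ := exists_rat_btwn (show max 0 (t - η) < t from max_lt h0 (by linarith))
    refine ⟨q, ?_, h2.le, (le_max_right _ _).trans_lt h1, Or.inl h2⟩
    have h3 : (0 : ℝ) < q := (le_max_left _ _).trans_lt h1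
    exact_mod_cast h3.le

lemma exists_right {t η : ℝ} (ht : t ≤ 1) (hη : 0 < η) :
    ∃ r : ℚ, r ≤ 1 ∧ t ≤ (r : ℝ) ∧ (r : ℝ) < t + η ∧ (t < (r : ℝ) ∨ r = 1) := by
  rcases ht.eq_or_lt with h0 | h0
  · refine ⟨1, le_rfl, by simpa using ht, ?_, Or.inr rfl⟩
    rw [h0]
    simpa using hη
  · obtain ⟨r, h1, h2⟩ := exists_rat_btwn (show t < min 1 (t + η) from lt_min h0 (by linarith))
    refine ⟨r, ?_, h1.le, h2.trans_le (min_le_right _ _), Or.inl h1⟩
    have h3 : (r : ℝ) < 1 := h2.trans_le (min_le_left _ _)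
    exact_mod_cast h3.le

lemma isClosed_bad {a b : ℝ} (Φ : Y) (G : ℝ → ℝ) : IsClosed (Icc a b \ GoodSet a b Φ G) := by
  let U : Set ℝ := ⋃ w ∈ {w : ℚ × ℚ | 0 ≤ w.1 ∧ w.1 < w.2 ∧ w.2 ≤ 1 ∧ Good a b Φ G w.1 w.2},
    {x : ℝ | (pt a b w.1 < x ∨ w.1 = 0) ∧ (x < pt a b w.2 ∨ w.2 = 1)}
  have hU : IsOpen U := by
    refine isOpen_biUnion fun w _ => ?_
    have h1 : IsOpen {x : ℝ | pt a b w.1 < x ∨ w.1 = 0} := by
      by_cases hw : w.1 = 0
      · simp [hw]
      · have e1 : {x : ℝ | pt a b w.1 < x ∨ w.1 = 0} = Ioi (pt a b w.1) := by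
          ext x
          simp [hw]
        rw [e1]
        exact isOpen_Ioi
    have h2 : IsOpen {x : ℝ | x < pt a b w.2 ∨ w.2 = 1} := by
      by_cases hw : w.2 = 1
      · simp [hw]
      · have e1 : {x : ℝ | x < pt a b w.2 ∨ w.2 = 1} = Iio (pt a b w.2) := by
          ext x
          simp [hw]
        rw [e1]
        exact isOpen_Iio
    exact h1.inter h2
  have e : Icc a b \ GoodSet a b Φ G = Icc a b \ U := by
    ext x
    simp only [mem_diff]
    refine and_congr_right fun hx => not_congr ?_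
    constructor
    · rintro ⟨-, q, r, h1, h2, h3, h4, h5, -, h7, -⟩
      exact mem_iUnion₂.2 ⟨(q, r), ⟨h1, h2, h3, h4⟩, h5, h7⟩
    · intro hxU
      obtain ⟨⟨q, r⟩, ⟨h1, h2, h3, h4⟩, h5, h6⟩ := mem_iUnion₂.1 hxU
      refine ⟨hx, q, r, h1, h2, h3, h4, h5, ?_, h6, ?_⟩
      · rcases h5 with h5 | h5
        · exact h5.le
        · have h5' : q = 0 := h5
          rw [h5', pt_zero]
          exact hx.1
      · rcases h6 with h6 | h6
        · exact h6.le
        · have h6' : r = 1 := h6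
          rw [h6', pt_one]
          exact hx.2
  rw [e]
  exact isClosed_Icc.sdiff hU

theorem main (hComp : TaskComp) (hACc : TaskACc) : Pool.Agent.Q302.DJ.TaskBaire := by
  intro a b h φ Φ F hstep hprim
  obtain ⟨⟨-, K, hKc, hKu, hK⟩, hder⟩ := hprim
  have hcont : Continuous (ex h.le F) := by
    unfold ex
    exact F.continuous.Icc_extend'
  set G : ℝ → ℝ := ex h.le F with hG
  refine Subset.antisymm (fun x hx => hx.1) ?_
  by_contra hcon
  obtain ⟨z, hz1, hz2⟩ := Set.not_subset.1 hcon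
  set P : Set ℝ := Icc a b \ GoodSet a b Φ G with hP
  have hPc : IsClosed P := isClosed_bad Φ G
  haveI : Nonempty P := ⟨⟨z, hz1, hz2⟩⟩
  haveI : CompleteSpace P := hPc.completeSpace_coe
  obtain ⟨n, x₀, hx₀⟩ := nonempty_interior_of_iUnion_of_closed
    (f := fun n => ((↑) : P → ℝ) ⁻¹' (K n)) (fun n => (hKc n).preimage continuous_subtype_val) (by
      rw [eq_univ_iff_forall]
      intro x
      have hx : (x : ℝ) ∈ Icc a b := x.2.1
      rw [hKu] at hx
      obtain ⟨n, hn⟩ := mem_iUnion.1 hx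
      exact mem_iUnion.2 ⟨n, hn⟩)
  obtain ⟨ε, hε, hball⟩ := Metric.mem_nhds_iff.1 (mem_interior_iff_mem_nhds.1 hx₀)
  have hPK : ∀ y ∈ P, |y - x₀| < ε → y ∈ K n := by
    intro y hy hyx
    exact hball (show (⟨y, hy⟩ : P) ∈ Metric.ball x₀ ε from hyx)
  have hba : 0 < b - a := by linarith
  have hx₀' : (x₀ : ℝ) ∈ Icc a b := x₀.2.1
  set t : ℝ := ((x₀ : ℝ) - a) / (b - a) with ht
  have ht' : (x₀ : ℝ) = a + (b - a) * t := by
    rw [ht]
    field_simp
    ring
  have ht0 : 0 ≤ t := div_nonneg (by linarith [hx₀'.1]) hba.le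
  have ht1 : t ≤ 1 := by
    rw [ht, div_le_one hba]
    linarith [hx₀'.2]
  have hη : 0 < ε / (b - a) := div_pos hε hba
  have hηe : (b - a) * (ε / (b - a)) = ε := by
    field_simp
  obtain ⟨q, hq0, hqt, hqη, hq⟩ := exists_left ht0 hη
  obtain ⟨r, hr1, hrt, hrη, hr⟩ := exists_right ht1 hη
  have hqr : q < r := by
    have : (q : ℝ) < r := by
      rcases hq with hq | hq
      · exact hq.trans_le hrt
      · rcases hr with hr | hr
        · exact hqt.trans_lt hr
        · rw [hq, hr]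
          norm_num
    exact_mod_cast this
  have hq1 : pt a b q ≤ x₀ := by
    have := mul_le_mul_of_nonneg_left hqt hba.le
    simp only [pt]
    linarith
  have hq2 : (x₀ : ℝ) - ε < pt a b q := by
    have := mul_lt_mul_of_pos_left hqη hba
    rw [mul_sub, hηe] at this
    simp only [pt]
    linarith
  have hr1' : (x₀ : ℝ) ≤ pt a b r := by
    have := mul_le_mul_of_nonneg_left hrt hba.le
    simp only [pt]
    linarith
  have hr2 : pt a b r < (x₀ : ℝ) + ε := by
    have := mul_lt_mul_of_pos_left hrη hba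
    rw [mul_add, hηe] at this
    simp only [pt]
    linarith
  -- the intervals which do not meet the bad set
  have hsub : ∀ q' r' : ℚ, 0 ≤ q' → q' < r' → r' ≤ 1 →
      (∀ x ∈ Icc (pt a b q') (pt a b r'), x ∉ P) → Concl a b Φ G q' r' := by
    intro q' r' h1 h2 h3 h4
    refine hComp a b h φ Φ F hstep q' r' h1 h2 h3 ?_ q' r' le_rfl h2 le_rfl
    intro x hx
    by_contra hxG
    refine h4 x hx ⟨⟨?_, ?_⟩, hxG⟩
    · have := pt_le h h1
      rw [pt_zero] at this
      exact this.trans hx.1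
    · have := pt_le h h3
      rw [pt_one] at this
      exact hx.2.trans this
  have hgood : Good a b Φ G q r := by
    intro q' r' hqq' hq'r' hr'r
    by_cases hemp : ∀ x ∈ Icc (pt a b q') (pt a b r'), x ∉ P
    · exact hsub q' r' (hq0.trans hqq') hq'r' (hr'r.trans hr1) hemp
    · push Not at hemp
      obtain ⟨x₁, hx₁, hx₁P⟩ := hemp
      set S : Set ℝ := P ∩ Icc (pt a b q') (pt a b r') with hS
      haveI : Nonempty S := ⟨⟨x₁, hx₁P, hx₁⟩⟩
      let p : ℕ → ℝ := fun m => (TopologicalSpace.denseSeq S m : ℝ)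
      have hpS : ∀ m, p m ∈ S := fun m => (TopologicalSpace.denseSeq S m).2
      refine hstep F p q' r' ⟨⟨hq0.trans hqq', hq'r', hr'r.trans hr1⟩,
        fun m => ⟨(hpS m).2.1, (hpS m).2.2⟩, ?_, ?_⟩ ?_
      · refine hACc G (K n) p hcont (hK n) fun m => hPK _ (hpS m).1 ?_
        have h1 := (pt_le h hqq').trans (hpS m).2.1
        have h2 := (hpS m).2.2.trans (pt_le h hr'r)
        rw [abs_lt]
        constructor <;> linarith
      · intro q'' r'' h1 h2 h3 hav
        refine hsub q'' r'' ((hq0.trans hqq').trans h1) h2 (h3.trans (hr'r.trans hr1)) ?_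
        intro x hx hxP
        obtain ⟨k, hk⟩ := hav
        have hk0 : (0 : ℝ) < 1 / ((k : ℝ) + 1) := by positivity
        have hxS : x ∈ S := ⟨hxP, (pt_le h h1).trans hx.1, hx.2.trans (pt_le h h3)⟩
        obtain ⟨m, hm⟩ := (TopologicalSpace.denseRange_denseSeq S).exists_dist_lt ⟨x, hxS⟩ hk0
        have hm' : |x - p m| < 1 / ((k : ℝ) + 1) := hm
        rw [abs_lt] at hm'
        rcases hk m with h4 | h4
        · linarith [hx.1]
        · linarith [hx.2]
      · filter_upwards [hder] with x hx _ using hx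
  refine x₀.2.2 ⟨hx₀', q, r, hq0, hqr, hr1, hgood, ?_, hq1, ?_, hr1'⟩
  · rcases hq with hq | hq
    · left
      have := mul_lt_mul_of_pos_left hq hba
      simp only [pt]
      linarith
    · exact Or.inr hq
  · rcases hr with hr | hr
    · left
      have := mul_lt_mul_of_pos_left hr hba
      simp only [pt]
      linarith
    · exact Or.inr hr

end Pool.Agent.Q302.DJ.TaskBaire
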