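import Pool.Agent.Q302.DJ.Stmts

set_option autoImplicit false

namespace Pool.Agent.Q302.DJ.TaskClos

open MeasureTheory Set Filter Topology
open Pool.Agent.Q302.DJ

private lemma osc_attained {F : ℝ → ℝ} (hF : Continuous F) {c d : ℝ} (h : c ≤ d) :
    ∃ s t, s ∈ Icc c d ∧ t ∈ Icc c d ∧ osc F c d = |F s - F t| := by
  have h1 : IsCompact (Icc c d ×ˢ Icc c d) := isCompact_Icc.prod isCompact_Icc
  have h2 : (Icc c d ×ˢ Icc c d).Nonempty :=
    ⟨(c, c), ⟨left_mem_Icc.mpr h, left_mem_Icc.mpr h⟩⟩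
  have h3 : ContinuousOn (fun z : ℝ × ℝ => |F z.1 - F z.2|) (Icc c d ×ˢ Icc c d) := by
    fun_prop
  obtain ⟨z, hz, h4⟩ := h1.exists_sSup_image_eq h2 h3
  exact ⟨z.1, z.2, hz.1, hz.2, h4⟩

private lemma exists_rat {A B e : ℝ} (h : A < B) (he : 0 < e) (s : ℝ) :
    ∃ q : ℚ, A ≤ q ∧ (q : ℝ) ≤ B ∧ |(q : ℝ) - max A (min s B)| ≤ e := by
  set z : ℝ := max A (min s B) with hz
  have h1 : A ≤ z := le_max_left _ _
  have h2 : z ≤ B := max_le h.le (min_le_right _ _)
  obtain ⟨q, hq1, hq2⟩ := exists_rat_btwn (show max A (z - e) < min B (z + e) by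
    rw [max_lt_iff, lt_min_iff, lt_min_iff]
    exact ⟨⟨h, by linarith⟩, ⟨by linarith, by linarith⟩⟩)
  rw [max_lt_iff] at hq1
  rw [lt_min_iff] at hq2
  exact ⟨q, hq1.1.le, hq2.1.le, abs_le.mpr ⟨by linarith, by linarith⟩⟩

theorem main : Pool.Agent.Q302.DJ.TaskClos := by
  intro F p hF hp ε hε
  obtain ⟨k, hk⟩ := exists_nat_one_div_lt hε
  obtain ⟨m, hm⟩ := hp k
  refine ⟨1 / ((m : ℝ) + 1), by positivity, ?_⟩
  intro n x y hxy hdis hsum
  choose s t hs ht hosc using fun l => osc_attained hF (hxy l).2.2.le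
  have hpos : ∀ N : ℕ, 0 < 1 / ((N : ℝ) + 1) := fun N => by positivity
  have hc' : ∀ (N : ℕ) (z : ℝ), ∃ c : ℕ, z ∈ closure (range p) → |p c - z| < 1 / ((N : ℝ) + 1) := by
    intro N z
    by_cases hz : z ∈ closure (range p)
    · obtain ⟨w, ⟨c, rfl⟩, hw⟩ := Metric.mem_closure_iff.mp hz _ (hpos N)
      refine ⟨c, fun _ => ?_⟩
      rw [dist_comm, Real.dist_eq] at hw
      exact hw
    · exact ⟨0, fun h => absurd h hz⟩
  choose c hc using hc'
  have hlim0 : Tendsto (fun N : ℕ => 1 / ((N : ℝ) + 1)) atTop (𝓝 0) :=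
    tendsto_one_div_add_atTop_nhds_zero_nat
  have hlim : ∀ z ∈ closure (range p), Tendsto (fun N => p (c N z)) atTop (𝓝 z) := by
    intro z hz
    rw [tendsto_iff_norm_sub_tendsto_zero]
    refine squeeze_zero (fun N => norm_nonneg _) (fun N => ?_) hlim0
    rw [Real.norm_eq_abs]
    exact (hc N z hz).le
  have hu' : ∀ (N : ℕ) (l : Fin n) (s : ℝ), ∃ q : ℚ, p (c N (x l)) < p (c N (y l)) →
      p (c N (x l)) ≤ q ∧ (q : ℝ) ≤ p (c N (y l)) ∧
        |(q : ℝ) - max (p (c N (x l))) (min s (p (c N (y l))))| ≤ 1 / ((N : ℝ) + 1) := by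
    intro N l s
    by_cases h : p (c N (x l)) < p (c N (y l))
    · obtain ⟨q, hq⟩ := exists_rat h (hpos N) s
      exact ⟨q, fun _ => hq⟩
    · exact ⟨0, fun h' => absurd h' h⟩
  choose u hu using hu'
  have hev : ∀ z ∈ closure (range p), ∀ w ∈ closure (range p), z < w →
      ∀ᶠ N in atTop, p (c N z) < p (c N w) :=
    fun z hz w hw h => (hlim z hz).eventually_lt (hlim w hw) h
  have hev1 : ∀ l, ∀ᶠ N in atTop, p (c N (x l)) < p (c N (y l)) :=
    fun l => hev _ (hxy l).1 _ (hxy l).2.1 (hxy l).2.2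
  have hulim : ∀ l, ∀ r ∈ Icc (x l) (y l), Tendsto (fun N => (u N l r : ℝ)) atTop (𝓝 r) := by
    intro l r hr
    have h1 : Tendsto (fun N => max (p (c N (x l))) (min r (p (c N (y l))))) atTop (𝓝 r) := by
      have h2 := (hlim _ (hxy l).1).max ((tendsto_const_nhds (x := r)).min (hlim _ (hxy l).2.1))
      rwa [min_eq_left hr.2, max_eq_right hr.1] at h2
    have h3 : Tendsto (fun N => (u N l r : ℝ) - max (p (c N (x l))) (min r (p (c N (y l)))))
        atTop (𝓝 0) := by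
      rw [tendsto_zero_iff_norm_tendsto_zero]
      refine squeeze_zero' (Eventually.of_forall fun N => norm_nonneg _) ?_ hlim0
      filter_upwards [hev1 l] with N hN
      rw [Real.norm_eq_abs]
      exact (hu N l r hN).2.2
    have h4 := h3.add h1
    simpa using h4
  have hord : ∀ l l', l ≠ l' → ∀ᶠ N in atTop,
      p (c N (y l)) ≤ p (c N (x l')) ∨ p (c N (y l')) ≤ p (c N (x l)) := by
    intro l l' hl
    have h1 : y l ≤ x l' ∨ y l' ≤ x l := by
      by_contra h2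
      push Not at h2
      have h3 := Set.disjoint_iff_inter_eq_empty.mp (hdis l l' hl)
      rw [Ioo_inter_Ioo, Ioo_eq_empty_iff, not_lt] at h3
      have h4 : max (x l) (x l') < min (y l) (y l') := by
        rw [max_lt_iff, lt_min_iff, lt_min_iff]
        exact ⟨⟨(hxy l).2.2, h2.2⟩, ⟨h2.1, (hxy l').2.2⟩⟩
      exact absurd h3 (not_le.mpr h4)
    rcases h1 with h1 | h1
    · rcases h1.eq_or_lt with h2 | h2
      · exact Eventually.of_forall fun N => Or.inl (by rw [h2])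
      · exact (hev _ (hxy l).2.1 _ (hxy l').1 h2).mono fun N hN => Or.inl hN.le
    · rcases h1.eq_or_lt with h2 | h2
      · exact Eventually.of_forall fun N => Or.inr (by rw [h2])
      · exact (hev _ (hxy l').2.1 _ (hxy l).1 h2).mono fun N hN => Or.inr hN.le
  have hsumlim : Tendsto (fun N => ∑ l, (p (c N (y l)) - p (c N (x l)))) atTop
      (𝓝 (∑ l, (y l - x l))) :=
    tendsto_finsetSum _ fun l _ => (hlim _ (hxy l).2.1).sub (hlim _ (hxy l).1)
  have hsumev : ∀ᶠ N in atTop, ∑ l, (p (c N (y l)) - p (c N (x l))) < 1 / ((m : ℝ) + 1) :=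
    hsumlim.eventually_lt_const hsum
  have hle : ∀ᶠ N in atTop, ∑ l, |F (u N l (s l)) - F (u N l (t l))| ≤ 1 / ((k : ℝ) + 1) := by
    have h1 : ∀ᶠ N in atTop, ∀ l, p (c N (x l)) < p (c N (y l)) := eventually_all.mpr hev1
    have h2 : ∀ᶠ N in atTop, ∀ l l', l ≠ l' →
        (p (c N (y l)) ≤ p (c N (x l')) ∨ p (c N (y l')) ≤ p (c N (x l))) := by
      rw [eventually_all]
      intro l
      rw [eventually_all]
      intro l'
      by_cases hl : l = l'
      · exact Eventually.of_forall fun N h => absurd hl h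
      · exact (hord l l' hl).mono fun N hN _ => hN
    filter_upwards [h1, h2, hsumev] with N hN1 hN2 hN3
    refine hm n (fun l => c N (x l)) (fun l => c N (y l)) (fun l => u N l (s l))
      (fun l => u N l (t l)) hN1 hN2 (fun l => ?_) hN3
    exact ⟨(hu N l (s l) (hN1 l)).1, (hu N l (s l) (hN1 l)).2.1, (hu N l (t l) (hN1 l)).1,
      (hu N l (t l) (hN1 l)).2.1⟩
  have hlimF : Tendsto (fun N => ∑ l, |F (u N l (s l)) - F (u N l (t l))|) atTop
      (𝓝 (∑ l, |F (s l) - F (t l)|)) :=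
    tendsto_finsetSum _ fun l _ =>
      (((hF.tendsto _).comp (hulim l _ (hs l))).sub ((hF.tendsto _).comp (hulim l _ (ht l)))).abs
  have hfin := le_of_tendsto hlimF hle
  have heq : ∑ l, osc F (x l) (y l) = ∑ l, |F (s l) - F (t l)| :=
    Finset.sum_congr rfl fun l _ => hosc l
  rw [heq]
  exact lt_of_le_of_lt hfin hk

end Pool.Agent.Q302.DJ.TaskClos
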