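import Pool.Agent.Q302.DJ.Stmts

/-! DJ.TaskCongr (author: helper119). -/

set_option autoImplicit false

namespace Pool.Agent.Q302.DJ.TaskCongr

open MeasureTheory Set Filter Topology Pool.Agent.Q302.DJ

theorem osc_congr {F G : ℝ → ℝ} {c d C : ℝ} (h : ∀ x ∈ Icc c d, F x = G x + C) {x y : ℝ}
    (hx : x ∈ Icc c d) (hy : y ∈ Icc c d) : osc F x y = osc G x y := by
  unfold osc
  congr 1
  refine image_congr ?_
  rintro ⟨u, v⟩ ⟨hu, hv⟩
  have hu' : u ∈ Icc c d := ⟨hx.1.trans hu.1, hu.2.trans hy.2⟩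
  have hv' : v ∈ Icc c d := ⟨hx.1.trans hv.1, hv.2.trans hy.2⟩
  change |F u - F v| = |G u - G v|
  rw [h u hu', h v hv']
  congr 1
  ring

theorem main : Pool.Agent.Q302.DJ.TaskCongr := by
  intro φ F G c d C hcd h hG
  obtain ⟨⟨hc, K, hK, hU, hA⟩, hD⟩ := hG
  refine ⟨⟨?_, K, hK, hU, ?_⟩, ?_⟩
  · exact (hc.add continuousOn_const).congr (fun x hx => h x hx)
  · intro n ε hε
    obtain ⟨δ, hδ, hh⟩ := hA n ε hε
    refine ⟨δ, hδ, ?_⟩
    intro k x y hxy hdis hsum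
    have hsub : K n ⊆ Icc c d := by
      rw [hU]
      exact subset_iUnion K n
    have := hh k x y hxy hdis hsum
    rwa [Finset.sum_congr rfl (fun i _ => osc_congr h (hsub (hxy i).1) (hsub (hxy i).2.1))]
  · have hne : ∀ᵐ x ∂(volume.restrict (Icc c d)), x ≠ c ∧ x ≠ d := by
      have h1 : ∀ᵐ x ∂(volume.restrict (Icc c d)), x ≠ c :=
        ae_restrict_of_ae (Measure.ae_ne volume c)
      have h2 : ∀ᵐ x ∂(volume.restrict (Icc c d)), x ≠ d :=
        ae_restrict_of_ae (Measure.ae_ne volume d)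
      filter_upwards [h1, h2] with x a b using ⟨a, b⟩
    filter_upwards [hD, hne, ae_restrict_mem measurableSet_Icc] with x hx hx' hmem
    have hnhds : Ioo c d ∈ 𝓝 x :=
      Ioo_mem_nhds (lt_of_le_of_ne hmem.1 (Ne.symm hx'.1)) (lt_of_le_of_ne hmem.2 hx'.2)
    refine (hx.add_const C).congr_of_eventuallyEq ?_
    filter_upwards [hnhds] with y hy using h y ⟨hy.1.le, hy.2.le⟩

end Pool.Agent.Q302.DJ.TaskCongr
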