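import Pool.Agent.Q302.DJ.Stmts

set_option autoImplicit false

namespace Pool.Agent.Q302.DJ.TaskDeriv

open MeasureTheory Set Filter Topology

theorem pointwise (F : ℝ → ℝ) (hF : Continuous F) (x L : ℝ) (c : ℕ → ℝ)
    (hc : Tendsto c atTop (𝓝 L)) :
    (∀ k : ℕ, ∃ m : ℕ, ∀ n, m ≤ n → ∀ t : ℚ, t ≠ 0 → |(t : ℝ)| < 1 / ((m : ℝ) + 1) →
      |F (x + t) - F x - c n * t| ≤ |(t : ℝ)| / ((k : ℝ) + 1)) ↔ HasDerivAt F L x := by
  constructor
  · intro H
    rw [hasDerivAt_iff_isLittleO_nhds_zero, Asymptotics.isLittleO_iff]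
    intro ε hε
    obtain ⟨k, hk⟩ := exists_nat_one_div_lt hε
    obtain ⟨m, hm⟩ := H k
    have hm0 : (0:ℝ) < 1 / ((m:ℝ) + 1) := by positivity
    have hk0 : (0:ℝ) < (k:ℝ) + 1 := by positivity
    have h1 : ∀ t : ℚ, |(t:ℝ)| < 1 / ((m : ℝ) + 1) →
        |F (x + t) - F x - L * t| ≤ |(t:ℝ)| / ((k:ℝ) + 1) := by
      intro t ht
      by_cases h0 : t = 0
      · subst h0; simp
      · have : Tendsto (fun n => |F (x + t) - F x - c n * t|) atTop
            (𝓝 |F (x + t) - F x - L * t|) :=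
          (((hc.mul_const _).const_sub _).abs)
        exact le_of_tendsto this (eventually_atTop.2 ⟨m, fun n hn => hm n hn t h0 ht⟩)
    have hcl : IsClosed {t : ℝ | |F (x + t) - F x - L * t| ≤ |t| / ((k:ℝ) + 1)} := by
      apply isClosed_le
      · fun_prop
      · fun_prop
    have hopen : IsOpen {t : ℝ | |t| < 1 / ((m:ℝ)+1)} := isOpen_lt continuous_abs continuous_const
    have hd : {t : ℝ | |t| < 1 / ((m:ℝ)+1)} ⊆
        closure ({t : ℝ | |t| < 1 / ((m:ℝ)+1)} ∩ Set.range ((↑) : ℚ → ℝ)) :=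
      Dense.open_subset_closure_inter Rat.denseRange_cast hopen
    have h2 : ∀ t : ℝ, |t| < 1 / ((m:ℝ) + 1) → |F (x + t) - F x - L * t| ≤ |t| / ((k:ℝ) + 1) := by
      intro t ht
      have h3 : ({t : ℝ | |t| < 1 / ((m:ℝ)+1)} ∩ Set.range ((↑) : ℚ → ℝ)) ⊆
          {t : ℝ | |F (x + t) - F x - L * t| ≤ |t| / ((k:ℝ) + 1)} := by
        rintro s ⟨hs, ⟨r, rfl⟩⟩
        exact h1 r hs
      exact (closure_minimal h3 hcl) (hd ht)
    have h0 : (0:ℝ) ∈ {t : ℝ | |t| < 1 / ((m:ℝ)+1)} := by simpa using hm0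
    filter_upwards [hopen.mem_nhds h0] with t ht
    have h4 := h2 t ht
    rw [Real.norm_eq_abs, Real.norm_eq_abs, smul_eq_mul, mul_comm t L]
    refine h4.trans ?_
    rw [div_eq_mul_one_div, mul_comm]
    exact mul_le_mul_of_nonneg_right hk.le (abs_nonneg _)
  · intro H k
    rw [hasDerivAt_iff_isLittleO_nhds_zero, Asymptotics.isLittleO_iff] at H
    have hk0 : (0:ℝ) < (k:ℝ) + 1 := by positivity
    have he : (0:ℝ) < 1 / (2 * ((k:ℝ) + 1)) := by positivity
    obtain ⟨δ, hδ, hd⟩ := Metric.eventually_nhds_iff.1 (H he)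
    obtain ⟨N, hN⟩ := Metric.tendsto_atTop.1 hc _ he
    obtain ⟨m0, hm0⟩ := exists_nat_one_div_lt hδ
    refine ⟨max N m0, fun n hn t _ ht => ?_⟩
    have hnN : N ≤ n := le_trans (le_max_left _ _) hn
    have h1 : |(t:ℝ)| < δ := by
      refine ht.trans (lt_of_le_of_lt ?_ hm0)
      apply one_div_le_one_div_of_le (by positivity)
      have : (m0 : ℝ) ≤ ((max N m0 : ℕ) : ℝ) := by exact_mod_cast le_max_right _ _
      linarith
    have h2 := @hd (t:ℝ) (by rw [Real.dist_eq, sub_zero]; exact h1)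
    have h3 := hN n hnN
    rw [Real.norm_eq_abs, Real.norm_eq_abs, smul_eq_mul] at h2
    rw [Real.dist_eq] at h3
    have h4 : F (x + t) - F x - c n * t = (F (x + t) - F x - t * L) - (c n - L) * t := by ring
    rw [h4]
    calc |(F (x + t) - F x - t * L) - (c n - L) * t|
        ≤ |F (x + t) - F x - t * L| + |(c n - L) * t| := abs_sub _ _
      _ ≤ 1 / (2 * ((k:ℝ) + 1)) * |(t:ℝ)| + 1 / (2 * ((k:ℝ) + 1)) * |(t:ℝ)| := by
          rw [abs_mul]
          exact add_le_add h2 (mul_le_mul_of_nonneg_right h3.le (abs_nonneg _))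
      _ = |(t : ℝ)| / ((k : ℝ) + 1) := by
          field_simp
          ring

theorem main : Pool.Agent.Q302.DJ.TaskDeriv := by
  intro a b h g φ F p hlim
  have hF : Continuous (ex h.le F) := by
    unfold ex
    exact F.continuous.Icc_extend'
  unfold DerivG DerivOn
  constructor
  · intro H
    filter_upwards [H, hlim] with x hx hl hp
    exact (pointwise (ex h.le F) hF x (φ x) _ hl).1 (hx hp)
  · intro H
    filter_upwards [H, hlim] with x hx hl hp
    exact (pointwise (ex h.le F) hF x (φ x) _ hl).2 (hx hp)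

end Pool.Agent.Q302.DJ.TaskDeriv
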