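import Pool.Agent.Q302.DJ.Stmts

set_option autoImplicit false

namespace Pool.Agent.Q302.DJ.TaskFast

open Pool.Agent.Q302.DJ

open MeasureTheory Set Filter Topology

/-- The set of the fast sequences is closed. -/
theorem main : Pool.Agent.Q302.DJ.TaskFast := by
  intro a b h
  have key : {g : ℕ → CC a b | Fast h g} =
      ⋂ n, {g : ℕ → CC a b | ∫ x in Icc a b, min 1 |ex h (g n) x - ex h (g (n + 1)) x| ≤ (1 / 2 : ℝ) ^ n} := by
    ext g
    simp [Fast]
  rw [key]
  refine isClosed_iInter fun n => isClosed_le ?_ continuous_const
  refine continuous_of_dominated (bound := fun _ => (1 : ℝ)) ?_ ?_ ?_ ?_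
  · intro g
    have c1 : Continuous (ex h (g n)) := (g n).continuous.Icc_extend'
    have c2 : Continuous (ex h (g (n + 1))) := (g (n + 1)).continuous.Icc_extend'
    exact (continuous_const.min (c1.sub c2).abs).aestronglyMeasurable
  · intro g
    refine Filter.Eventually.of_forall fun x => ?_
    rw [Real.norm_of_nonneg (le_min zero_le_one (abs_nonneg _))]
    exact min_le_left _ _
  · exact integrable_const _
  · refine Filter.Eventually.of_forall fun x => ?_
    have e : ∀ m : ℕ, Continuous fun g : ℕ → CC a b => ex h (g m) x := by
      intro m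
      have h1 : ∀ g : ℕ → CC a b, ex h (g m) x = (g m) (projIcc a b h x) := fun g => rfl
      simp_rw [h1]
      exact (continuous_eval_const (projIcc a b h x)).comp (continuous_apply m)
    exact continuous_const.min ((e n).sub (e (n + 1))).abs

end Pool.Agent.Q302.DJ.TaskFast
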