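import Mathlib
import Pool.Agent.Q302.DJ.Stmts

set_option autoImplicit false

namespace Pool.Agent.Q302.DJ.TaskGlue

open MeasureTheory Set Filter Topology Pool.Agent.Q302.DJ

lemma pt_lt {a b : ℝ} (h : a < b) {q r : ℚ} (hqr : q < r) : pt a b q < pt a b r := by
  unfold pt
  have : (q : ℝ) < r := by exact_mod_cast hqr
  nlinarith [mul_lt_mul_of_pos_left this (sub_pos.2 h)]

lemma pt_le {a b : ℝ} (h : a < b) {q r : ℚ} (hqr : q ≤ r) : pt a b q ≤ pt a b r := by
  unfold pt
  have : (q : ℝ) ≤ r := by exact_mod_cast hqr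
  nlinarith [mul_le_mul_of_nonneg_left this (sub_pos.2 h).le]

/-- rational points near a point of the interval -/
lemma near {a b : ℝ} (h : a < b) (q r : ℚ) (hqr : q < r) (x : ℝ)
    (hx : x ∈ Icc (pt a b q) (pt a b r)) (ρ : ℝ) (hρ : 0 < ρ) :
    ∃ q' r' : ℚ, q ≤ q' ∧ q' < r' ∧ r' ≤ r ∧ x ∈ Icc (pt a b q') (pt a b r') ∧
      x - ρ < pt a b q' ∧ pt a b r' < x + ρ := by
  have hba : 0 < b - a := sub_pos.2 h
  set t : ℝ := (x - a) / (b - a) with ht
  have hxt : x = a + (b - a) * t := by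
    rw [ht]; field_simp; ring
  have hη : 0 < ρ / (b - a) := by positivity
  set η : ℝ := ρ / (b - a) with hηd
  have hρη : ρ = (b - a) * η := by
    rw [hηd]; field_simp
  have hqt : (q : ℝ) ≤ t := by
    by_contra hc
    push Not at hc
    have := hx.1
    unfold pt at this
    rw [hxt] at this
    nlinarith [mul_lt_mul_of_pos_left hc hba]
  have htr : t ≤ (r : ℝ) := by
    by_contra hc
    push Not at hc
    have := hx.2
    unfold pt at this
    rw [hxt] at this
    nlinarith [mul_lt_mul_of_pos_left hc hba]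
  have hqr' : (q : ℝ) < r := by exact_mod_cast hqr
  obtain ⟨q', hq1, hq2, hq3, hq4⟩ : ∃ q' : ℚ, q ≤ q' ∧ (q' : ℝ) ≤ t ∧ t - η < q' ∧
      ((q : ℝ) < t → (q' : ℝ) < t) := by
    rcases hqt.lt_or_eq with hlt | heq
    · obtain ⟨s, hs1, hs2⟩ := exists_rat_btwn (show max (q : ℝ) (t - η) < t from
        max_lt hlt (by linarith))
      refine ⟨s, ?_, hs2.le, (le_max_right _ _).trans_lt hs1, fun _ => hs2⟩
      exact_mod_cast ((le_max_left _ _).trans_lt hs1).le
    · exact ⟨q, le_rfl, heq.le, by linarith, fun hh => hh⟩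
  obtain ⟨r', hr1, hr2, hr3, hr4⟩ : ∃ r' : ℚ, r' ≤ r ∧ t ≤ (r' : ℝ) ∧ (r' : ℝ) < t + η ∧
      (t < (r : ℝ) → t < (r' : ℝ)) := by
    rcases htr.lt_or_eq with hlt | heq
    · obtain ⟨s, hs1, hs2⟩ := exists_rat_btwn (show t < min (r : ℝ) (t + η) from
        lt_min hlt (by linarith))
      refine ⟨s, ?_, hs1.le, hs2.trans_le (min_le_right _ _), fun _ => hs1⟩
      exact_mod_cast (hs2.trans_le (min_le_left _ _)).le
    · exact ⟨r, le_rfl, heq.le, by linarith, fun hh => hh⟩
  have hlt : (q' : ℝ) < r' := by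
    by_cases hc : (q : ℝ) < t
    · exact (hq4 hc).trans_le hr2
    · exact hq2.trans_lt (hr4 (by linarith))
  refine ⟨q', r', hq1, by exact_mod_cast hlt, hr1, ⟨?_, ?_⟩, ?_, ?_⟩
  · unfold pt; rw [hxt]; nlinarith [mul_le_mul_of_nonneg_left hq2 hba.le]
  · unfold pt; rw [hxt]; nlinarith [mul_le_mul_of_nonneg_left hr2 hba.le]
  · unfold pt; rw [hxt, hρη]; nlinarith [mul_lt_mul_of_pos_left hq3 hba]
  · unfold pt; rw [hxt, hρη]; nlinarith [mul_lt_mul_of_pos_left hr3 hba]

/-- on an interval which avoids the sequence the function is a primitive -/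
lemma prim_of_avoid (hRestr : TaskRestr) (hCongr : TaskCongr) {a b : ℝ} (h : a < b) (φ : ℝ → ℝ)
    (Φ : Y) (hΦ : TrueInt a b φ Φ) (F : ℝ → ℝ) (hF : Continuous F) (p : ℕ → ℝ) (q r : ℚ)
    (hq : 0 ≤ q) (hqr : q < r) (hr : r ≤ 1)
    (hav : Avoid p (pt a b q) (pt a b r))
    (hc : ∀ q' r' : ℚ, q ≤ q' → q' < r' → r' ≤ r → Avoid p (pt a b q') (pt a b r') →
      Concl a b Φ F q' r') : IsPrim φ F (pt a b q) (pt a b r) := by
  have hav' : ∀ r' : ℚ, q < r' → r' ≤ r → Avoid p (pt a b q) (pt a b r') := by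
    intro r' hr1 hr2
    obtain ⟨n, hn⟩ := hav
    refine ⟨n, fun m => ?_⟩
    rcases hn m with hm | hm
    · exact Or.inl hm
    · exact Or.inr (by linarith [pt_le h hr2])
  obtain ⟨hdef, hval⟩ := hc q r le_rfl hqr le_rfl hav
  obtain ⟨G, hG⟩ := (hΦ q r hq hqr hr).1.1 hdef
  have hGc : ContinuousOn G (Icc (pt a b q) (pt a b r)) := hG.1.1
  have hrat : ∀ r' : ℚ, q < r' → r' ≤ r → F (pt a b r') - F (pt a b q) =
      G (pt a b r') - G (pt a b q) := by
    intro r' hr1 hr2
    have h1 := (hc q r' le_rfl hr1 hr2 (hav' r' hr1 hr2)).2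
    have h2 := (hΦ q r' hq hr1 (hr2.trans hr)).2 G
      (hRestr φ G _ _ _ _ le_rfl (pt_lt h hr1) (pt_le h hr2) hG)
    linarith
  refine hCongr φ F G _ _ (F (pt a b q) - G (pt a b q)) (pt_lt h hqr) ?_ hG
  have hcl : IsClosed {x : ℝ | x ∈ Icc (pt a b q) (pt a b r) ∧
      F x = G x + (F (pt a b q) - G (pt a b q))} := by
    have h1 : ContinuousOn (fun x => F x - (G x + (F (pt a b q) - G (pt a b q))))
        (Icc (pt a b q) (pt a b r)) := hF.continuousOn.sub (hGc.add continuousOn_const)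
    have h2 := h1.preimage_isClosed_of_isClosed isClosed_Icc (isClosed_singleton (x := (0 : ℝ)))
    convert h2 using 1
    ext x
    simp only [mem_setOf_eq, mem_inter_iff, mem_preimage, mem_singleton_iff, sub_eq_zero]
  intro x hx
  by_contra hne
  -- a sequence of rational points
  have hmem : x ∈ closure {x : ℝ | x ∈ Icc (pt a b q) (pt a b r) ∧
      F x = G x + (F (pt a b q) - G (pt a b q))} := by
    rw [Metric.mem_closure_iff]
    intro ε hε
    obtain ⟨q', r', hq1, hqr', hr1, hx', hq2, hr2⟩ := near h q r hqr x hx ε hε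
    refine ⟨pt a b r', ⟨⟨(pt_lt h (hq1.trans_lt hqr')).le, pt_le h hr1⟩, ?_⟩, ?_⟩
    · have := hrat r' (hq1.trans_lt hqr') hr1
      linarith
    · rw [Real.dist_eq, abs_lt]
      constructor <;> linarith [hx'.2]
  rw [hcl.closure_eq] at hmem
  exact hne hmem.2

theorem main (hClos : TaskClos) (hRestr : TaskRestr) (hCongr : TaskCongr) :
    Pool.Agent.Q302.DJ.TaskGlue := by
  intro a b h φ Φ hΦ F p q r hstep hder
  obtain ⟨⟨hq, hqr, hr⟩, hp, hAC, hcon⟩ := hstep
  have hFc : Continuous (ex h.le F) := F.continuous.Icc_extend'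
  set F' : ℝ → ℝ := ex h.le F with hF'
  have hcd : pt a b q < pt a b r := pt_lt h hqr
  have hK0 : ACStar F' (closure (range p)) := hClos F' p hFc hAC
  have hK0s : closure (range p) ⊆ Icc (pt a b q) (pt a b r) := by
    refine closure_minimal ?_ isClosed_Icc
    rintro _ ⟨n, rfl⟩
    exact hp n
  -- the good pairs
  let Gd : ℚ × ℚ → Prop := fun z => q ≤ z.1 ∧ z.1 < z.2 ∧ z.2 ≤ r ∧
    Avoid p (pt a b z.1) (pt a b z.2)
  have hprim : ∀ z, Gd z → IsPrim φ F' (pt a b z.1) (pt a b z.2) := by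
    rintro z ⟨h1, h2, h3, h4⟩
    refine prim_of_avoid hRestr hCongr h φ Φ hΦ F' hFc p z.1 z.2 (hq.trans h1) h2 (h3.trans hr) h4 ?_
    intro q' r' hq' hqr' hr' hav
    exact hcon q' r' (h1.trans hq') hqr' (hr'.trans h3) hav
  have hcov : ∀ x ∈ Icc (pt a b q) (pt a b r), x ∉ closure (range p) →
      ∃ z, Gd z ∧ x ∈ Icc (pt a b z.1) (pt a b z.2) := by
    intro x hx hxn
    rw [Metric.mem_closure_iff] at hxn
    push Not at hxn
    obtain ⟨ρ, hρ, hρ'⟩ := hxn
    obtain ⟨q', r', hq1, hqr', hr1, hx', hq2, hr2⟩ := near h q r hqr x hx (ρ / 2) (by linarith)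
    refine ⟨(q', r'), ⟨hq1, hqr', hr1, ?_⟩, hx'⟩
    obtain ⟨n, hn⟩ := exists_nat_one_div_lt (show (0 : ℝ) < ρ / 2 by linarith)
    refine ⟨n, fun m => ?_⟩
    have hm := hρ' (p m) ⟨m, rfl⟩
    rw [Real.dist_eq] at hm
    rcases le_abs.1 hm with hm | hm
    · left
      show p m < pt a b q' - 1 / ((n : ℝ) + 1)
      linarith
    · right
      show pt a b r' + 1 / ((n : ℝ) + 1) < p m
      linarith
  refine ⟨⟨hFc.continuousOn, ?_⟩, ?_⟩
  · -- closed sets
    have hKs : ∀ z, ∃ K : ℕ → Set ℝ, Gd z → (∀ n, IsClosed (K n)) ∧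
        Icc (pt a b z.1) (pt a b z.2) = ⋃ n, K n ∧ ∀ n, ACStar F' (K n) := by
      intro z
      by_cases hz : Gd z
      · obtain ⟨K, hK⟩ := (hprim z hz).1.2
        exact ⟨K, fun _ => hK⟩
      · exact ⟨fun _ => ∅, fun hh => absurd hh hz⟩
    choose K hK using hKs
    classical
    let KI : Option ((ℚ × ℚ) × ℕ) → Set ℝ := fun o => match o with
      | none => closure (range p)
      | some w => if Gd w.1 then K w.1 w.2 else closure (range p)
    obtain ⟨e, he⟩ := exists_surjective_nat (Option ((ℚ × ℚ) × ℕ))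
    have hall : ∀ o, IsClosed (KI o) ∧ KI o ⊆ Icc (pt a b q) (pt a b r) ∧ ACStar F' (KI o) := by
      intro o
      match o with
      | none => exact ⟨isClosed_closure, hK0s, hK0⟩
      | some w =>
        by_cases hw : Gd w.1
        · simp only [KI, if_pos hw]
          obtain ⟨h1, h2, h3⟩ := hK w.1 hw
          refine ⟨h1 _, ?_, h3 _⟩
          have h4 : K w.1 w.2 ⊆ Icc (pt a b w.1.1) (pt a b w.1.2) := by
            rw [h2]; exact subset_iUnion _ _
          exact h4.trans (Icc_subset_Icc (pt_le h hw.1) (pt_le h hw.2.2.1))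
        · simp only [KI, if_neg hw]
          exact ⟨isClosed_closure, hK0s, hK0⟩
    refine ⟨fun n => KI (e n), fun n => (hall _).1, ?_, fun n => (hall _).2.2⟩
    apply Subset.antisymm
    · intro x hx
      by_cases hxn : x ∈ closure (range p)
      · obtain ⟨n, hn⟩ := he none
        refine mem_iUnion.2 ⟨n, ?_⟩
        simp only [hn]
        exact hxn
      · obtain ⟨z, hz, hxz⟩ := hcov x hx hxn
        rw [(hK z hz).2.1] at hxz
        obtain ⟨m, hm⟩ := mem_iUnion.1 hxz
        obtain ⟨n, hn⟩ := he (some (z, m))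
        refine mem_iUnion.2 ⟨n, ?_⟩
        simp only [hn, KI, if_pos hz]
        exact hm
    · exact iUnion_subset fun n => (hall _).2.1
  · rw [ae_restrict_iff' measurableSet_Icc]
    unfold DerivOn at hder
    rw [ae_restrict_iff' measurableSet_Icc] at hder
    have hall : ∀ᵐ x ∂(volume : Measure ℝ), ∀ z, Gd z → x ∈ Icc (pt a b z.1) (pt a b z.2) →
        HasDerivAt F' (φ x) x := by
      rw [ae_all_iff]
      intro z
      by_cases hz : Gd z
      · have := (hprim z hz).2
        rw [ae_restrict_iff' measurableSet_Icc] at this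
        filter_upwards [this] with x hx _ hx' using hx hx'
      · exact Eventually.of_forall fun x hh => absurd hh hz
    have hsub : Icc (pt a b q) (pt a b r) ⊆ Icc a b := by
      apply Icc_subset_Icc
      · have := pt_le h hq
        unfold pt at this ⊢
        simpa using this
      · have := pt_le h hr
        unfold pt at this ⊢
        simpa using this
    filter_upwards [hall, hder] with x hx1 hx2 hx
    by_cases hxn : x ∈ closure (range p)
    · exact hx2 (hsub hx) hxn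
    · obtain ⟨z, hz, hxz⟩ := hcov x hx hxn
      exact hx1 z hz hxz

end Pool.Agent.Q302.DJ.TaskGlue
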