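import Pool.Agent.Q302.DJ.Stmts

set_option autoImplicit false

namespace Pool.Agent.Q302.DJ.TaskMeasA

open MeasureTheory Set Filter Topology
open Pool.Agent.Q302.DJ

theorem cont_ex {a b : ℝ} (h : a ≤ b) (x : ℝ) :
    Continuous fun z : CC a b × (ℕ → ℝ) => ex h z.1 x := by
  unfold ex
  simp only [IccExtend, Function.comp_apply]
  exact (continuous_eval_const (projIcc a b h x)).comp continuous_fst

theorem cont_p {a b : ℝ} (i : ℕ) : Continuous fun z : CC a b × (ℕ → ℝ) => z.2 i :=
  (continuous_apply i).comp continuous_snd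

theorem main : Pool.Agent.Q302.DJ.TaskMeasA := by
  intro a b hab
  let _ : MeasurableSpace (CC a b × (ℕ → ℝ)) := borel _
  have : BorelSpace (CC a b × (ℕ → ℝ)) := ⟨rfl⟩
  have hp : ∀ i : ℕ, Measurable fun z : CC a b × (ℕ → ℝ) => z.2 i := fun i => (cont_p i).measurable
  have hF : ∀ x : ℝ, Measurable fun z : CC a b × (ℕ → ℝ) => ex hab.le z.1 x :=
    fun x => (cont_ex hab.le x).measurable
  change MeasurableSet {z : CC a b × (ℕ → ℝ) | ACc (ex hab.le z.1) z.2}
  unfold ACc
  rw [ofPred_forall]
  refine MeasurableSet.iInter fun k => ?_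
  rw [ofPred_exists]
  refine MeasurableSet.iUnion fun m => ?_
  rw [ofPred_forall]
  refine MeasurableSet.iInter fun n => ?_
  rw [ofPred_forall]
  refine MeasurableSet.iInter fun i => ?_
  rw [ofPred_forall]
  refine MeasurableSet.iInter fun j => ?_
  rw [ofPred_forall]
  refine MeasurableSet.iInter fun u => ?_
  rw [ofPred_forall]
  refine MeasurableSet.iInter fun v => ?_
  have himp : ∀ P Q : CC a b × (ℕ → ℝ) → Prop, MeasurableSet {z | P z} → MeasurableSet {z | Q z} →
      MeasurableSet {z | P z → Q z} := by
    intro P Q h1 h2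
    have : {z | P z → Q z} = {z | P z}ᶜ ∪ {z | Q z} := by
      ext z; simp [imp_iff_not_or]
    rw [this]
    exact h1.compl.union h2
  refine himp _ _ ?_ (himp _ _ ?_ (himp _ _ ?_ (himp _ _ ?_ ?_)))
  · rw [ofPred_forall]
    exact MeasurableSet.iInter fun l => measurableSet_lt (hp _) (hp _)
  · rw [ofPred_forall]
    refine MeasurableSet.iInter fun l => ?_
    rw [ofPred_forall]
    refine MeasurableSet.iInter fun l' => ?_
    refine himp _ _ (MeasurableSet.const _) ?_
    rw [ofPred_or]
    exact (measurableSet_le (hp _) (hp _)).union (measurableSet_le (hp _) (hp _))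
  · rw [ofPred_forall]
    refine MeasurableSet.iInter fun l => ?_
    rw [ofPred_and, ofPred_and, ofPred_and]
    exact (measurableSet_le (hp _) measurable_const).inter
      ((measurableSet_le measurable_const (hp _)).inter
        ((measurableSet_le (hp _) measurable_const).inter
          (measurableSet_le measurable_const (hp _))))
  · refine measurableSet_lt ?_ measurable_const
    exact Finset.measurable_sum _ fun l _ => (hp _).sub (hp _)
  · refine measurableSet_le ?_ measurable_const
    exact Finset.measurable_sum _ fun l _ => ((hF _).sub (hF _)).abs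

end Pool.Agent.Q302.DJ.TaskMeasA
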