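import Pool.Agent.Q302.DJ.Stmts

set_option autoImplicit false

/-! The set of the `(g, F, p)` with `DerivG` is Borel (helper158). -/

namespace Pool.Agent.Q302.DJ.TaskMeasD

open MeasureTheory Set Filter Topology

/-- the product space -/
abbrev XX (a b : ℝ) : Type := (ℕ → CC a b) × CC a b × (ℕ → ℝ)

theorem cont_ex {a b : ℝ} (h : a ≤ b) : Continuous (fun z : CC a b × ℝ => ex h z.1 z.2) := by
  have h1 : Continuous (fun z : CC a b × ℝ => z.1 (projIcc a b h z.2)) :=
    continuous_fst.eval (continuous_projIcc.comp continuous_snd)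
  exact h1

theorem main : Pool.Agent.Q302.DJ.TaskMeasD := by
  intro a b h
  let _ : MeasurableSpace (XX a b) := borel _
  have _ : BorelSpace (XX a b) := ⟨rfl⟩
  have hA : Measurable (fun w : XX a b × ℝ => w.2 ∈ closure (range w.1.2.2)) := by
    have e : (fun w : XX a b × ℝ => w.2 ∈ closure (range w.1.2.2)) =
        fun w => ∀ k : ℕ, ∃ n : ℕ, dist w.2 (w.1.2.2 n) < 1 / ((k : ℝ) + 1) := by
      funext w
      exact propext Metric.mem_closure_range_iff_nat
    rw [e]
    refine Measurable.forall fun k => Measurable.exists fun n => measurableSet_setOfPred.1 ?_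
    refine IsOpen.measurableSet (isOpen_lt (continuous_snd.dist ?_) continuous_const)
    exact (continuous_apply n).comp (continuous_snd.comp (continuous_snd.comp continuous_fst))
  obtain ⟨S, hSdef⟩ : ∃ S : Set (XX a b × ℝ), S = {w : XX a b × ℝ | w.2 ∈ closure (range w.1.2.2) →
      ∀ k : ℕ, ∃ m : ℕ, ∀ n, m ≤ n → ∀ t : ℚ, t ≠ 0 → |(t : ℝ)| < 1 / ((m : ℝ) + 1) →
        |ex h.le w.1.2.1 (w.2 + t) - ex h.le w.1.2.1 w.2 - ex h.le (w.1.1 n) w.2 * t| ≤
          |(t : ℝ)| / ((k : ℝ) + 1)} := ⟨_, rfl⟩
  have hS : MeasurableSet S := by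
    rw [hSdef]
    refine measurableSet_setOfPred.2 (Measurable.imp hA ?_)
    refine Measurable.forall fun k => Measurable.exists fun m => Measurable.forall fun n =>
      Measurable.imp measurable_const (Measurable.forall fun t =>
        Measurable.imp measurable_const (Measurable.imp measurable_const ?_))
    refine measurableSet_setOfPred.1 (IsClosed.measurableSet (isClosed_le ?_ continuous_const))
    have cF : Continuous (fun w : XX a b × ℝ => w.1.2.1) :=
      continuous_fst.comp (continuous_snd.comp continuous_fst)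
    have cg : Continuous (fun w : XX a b × ℝ => w.1.1 n) :=
      (continuous_apply n).comp (continuous_fst.comp continuous_fst)
    have c1 : Continuous (fun w : XX a b × ℝ => ex h.le w.1.2.1 (w.2 + t)) :=
      (cont_ex h.le).comp (cF.prodMk (continuous_snd.add continuous_const))
    have c2 : Continuous (fun w : XX a b × ℝ => ex h.le w.1.2.1 w.2) :=
      (cont_ex h.le).comp (cF.prodMk continuous_snd)
    have c3 : Continuous (fun w : XX a b × ℝ => ex h.le (w.1.1 n) w.2) :=
      (cont_ex h.le).comp (cg.prodMk continuous_snd)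
    exact ((c1.sub c2).sub (c3.mul continuous_const)).abs
  have h1 := measurable_measure_prodMk_left (ν := volume.restrict (Icc a b)) hS.compl
  have h2 := h1 (measurableSet_singleton 0)
  have e : ∀ z : XX a b, DerivG h.le z.1 (ex h.le z.2.1) z.2.2 ↔
      (volume.restrict (Icc a b)) (Prod.mk z ⁻¹' Sᶜ) = 0 := by
    intro z
    rw [hSdef]
    exact ae_iff
  have h3 : {z : XX a b | DerivG h.le z.1 (ex h.le z.2.1) z.2.2} =
      (fun z : XX a b => (volume.restrict (Icc a b)) (Prod.mk z ⁻¹' Sᶜ)) ⁻¹' {0} :=
    Set.ext fun z => e z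
  show MeasurableSet {z : XX a b | DerivG h.le z.1 (ex h.le z.2.1) z.2.2}
  rw [h3]
  exact h2

end Pool.Agent.Q302.DJ.TaskMeasD
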