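import Pool.Agent.Q302.DJ.Stmts

set_option autoImplicit false

namespace Pool.Agent.Q302.DJ.TaskMeasS

open MeasureTheory Set Filter Topology
open Pool.Agent.Q302.DJ

theorem cEx {a b : ℝ} (h : a ≤ b) (x : ℝ) :
    Continuous fun z : Y × CC a b × (ℕ → ℝ) => ex h z.2.1 x := by
  have : (fun z : Y × CC a b × (ℕ → ℝ) => ex h z.2.1 x) = fun z => z.2.1 (projIcc a b h x) := rfl
  rw [this]
  exact (continuous_eval_const _).comp (continuous_fst.comp continuous_snd)

theorem cP {a b : ℝ} (n : ℕ) : Continuous fun z : Y × CC a b × (ℕ → ℝ) => z.2.2 n :=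
  (continuous_apply n).comp (continuous_snd.comp continuous_snd)

theorem main (hA : TaskMeasA) : Pool.Agent.Q302.DJ.TaskMeasS := by
  intro a b h q r
  letI m1 : MeasurableSpace (Y × CC a b × (ℕ → ℝ)) := borel _
  haveI : BorelSpace (Y × CC a b × (ℕ → ℝ)) := ⟨rfl⟩
  letI m2 : MeasurableSpace (CC a b × (ℕ → ℝ)) := borel _
  haveI : BorelSpace (CC a b × (ℕ → ℝ)) := ⟨rfl⟩
  have hConcl : ∀ q' r' : ℚ, @MeasurableSet _ m1
      {z : Y × CC a b × (ℕ → ℝ) | Concl a b z.1 (ex h.le z.2.1) q' r'} := by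
    intro q' r'
    have h0 : Continuous fun z : Y × CC a b × (ℕ → ℝ) => z.1 (q', r') :=
      (continuous_apply (q', r')).comp continuous_fst
    have h1 : Continuous fun z : Y × CC a b × (ℕ → ℝ) => (z.1 (q', r')).2 :=
      continuous_snd.comp h0
    have h2 : Continuous fun z : Y × CC a b × (ℕ → ℝ) => (z.1 (q', r')).1 :=
      continuous_fst.comp h0
    exact ((isClosed_eq h1 continuous_const).inter
      (isClosed_eq h2 ((cEx h.le _).sub (cEx h.le _)))).measurableSet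
  have hAv : ∀ c d : ℝ, @MeasurableSet _ m1 {z : Y × CC a b × (ℕ → ℝ) | Avoid z.2.2 c d} := by
    intro c d
    have : {z : Y × CC a b × (ℕ → ℝ) | Avoid z.2.2 c d} = ⋃ n : ℕ, ⋂ m : ℕ,
        ({z : Y × CC a b × (ℕ → ℝ) | z.2.2 m < c - 1 / ((n : ℝ) + 1)} ∪
          {z : Y × CC a b × (ℕ → ℝ) | d + 1 / ((n : ℝ) + 1) < z.2.2 m}) := by
      ext z
      simp only [Avoid, mem_setOf_eq, mem_iUnion, mem_iInter, mem_union]
    rw [this]
    refine MeasurableSet.iUnion fun n => MeasurableSet.iInter fun m => ?_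
    exact ((isOpen_lt (cP m) continuous_const).union
      (isOpen_lt continuous_const (cP m))).measurableSet
  have hACc : @MeasurableSet _ m1 {z : Y × CC a b × (ℕ → ℝ) | ACc (ex h.le z.2.1) z.2.2} := by
    have hm : @Measurable _ _ m1 m2 (fun z : Y × CC a b × (ℕ → ℝ) => z.2) :=
      continuous_snd.measurable
    exact hm (hA a b h)
  have hBd : @MeasurableSet _ m1 {z : Y × CC a b × (ℕ → ℝ) |
      ∀ n, pt a b q ≤ z.2.2 n ∧ z.2.2 n ≤ pt a b r} := by
    have : {z : Y × CC a b × (ℕ → ℝ) | ∀ n, pt a b q ≤ z.2.2 n ∧ z.2.2 n ≤ pt a b r} = ⋂ n : ℕ,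
        ({z : Y × CC a b × (ℕ → ℝ) | pt a b q ≤ z.2.2 n} ∩
          {z : Y × CC a b × (ℕ → ℝ) | z.2.2 n ≤ pt a b r}) := by
      ext z
      simp only [mem_setOf_eq, mem_iInter, mem_inter_iff]
    rw [this]
    exact MeasurableSet.iInter fun n => ((isClosed_le continuous_const (cP n)).inter
      (isClosed_le (cP n) continuous_const)).measurableSet
  have hImp : @MeasurableSet _ m1 {z : Y × CC a b × (ℕ → ℝ) | ∀ q' r' : ℚ, q ≤ q' → q' < r' →
      r' ≤ r → Avoid z.2.2 (pt a b q') (pt a b r') → Concl a b z.1 (ex h.le z.2.1) q' r'} := by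
    have : {z : Y × CC a b × (ℕ → ℝ) | ∀ q' r' : ℚ, q ≤ q' → q' < r' →
        r' ≤ r → Avoid z.2.2 (pt a b q') (pt a b r') → Concl a b z.1 (ex h.le z.2.1) q' r'} =
        ⋂ q' : ℚ, ⋂ r' : ℚ, ⋂ _ : q ≤ q', ⋂ _ : q' < r', ⋂ _ : r' ≤ r,
          ({z : Y × CC a b × (ℕ → ℝ) | Avoid z.2.2 (pt a b q') (pt a b r')}ᶜ ∪
            {z : Y × CC a b × (ℕ → ℝ) | Concl a b z.1 (ex h.le z.2.1) q' r'}) := by
      ext z
      simp only [mem_setOf_eq, mem_iInter, mem_union, mem_compl_iff, imp_iff_not_or]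
    rw [this]
    refine MeasurableSet.iInter fun q' => MeasurableSet.iInter fun r' => MeasurableSet.iInter fun _ =>
      MeasurableSet.iInter fun _ => MeasurableSet.iInter fun _ => ?_
    exact (hAv _ _).compl.union (hConcl _ _)
  have hfin := (((MeasurableSet.const (0 ≤ q ∧ q < r ∧ r ≤ 1)).inter
    (hBd.inter (hACc.inter hImp))).inter (hConcl q r).compl)
  convert hfin using 1
  ext z
  exact Iff.rfl

end Pool.Agent.Q302.DJ.TaskMeasS
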