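import Pool.Agent.Q302.DJ.Stmts

set_option autoImplicit false

namespace Pool.Agent.Q302.DJ.TaskMin

open MeasureTheory Set Filter Topology

theorem main (hComp : TaskComp) (hBaire : TaskBaire) (hCongr : TaskCongr) :
    Pool.Agent.Q302.DJ.TaskMin := by
  intro a b h φ Φ hcl hF
  obtain ⟨F, hF⟩ := hF
  have hcont : ContinuousOn F (Icc a b) := hF.1.1
  let F' : CC a b := ⟨(Icc a b).domRestrict F, continuousOn_iff_continuous_domRestrict.1 hcont⟩
  have hex : ∀ x ∈ Icc a b, ex h.le F' x = F x + 0 := by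
    intro x hx
    unfold ex
    rw [IccExtend_of_mem _ _ hx]
    rw [add_zero]; rfl
  have hprim : IsPrim φ (ex h.le F') a b := hCongr φ (ex h.le F') F a b 0 h hex hF
  have hgood := hBaire a b h φ Φ F' hcl hprim
  have h0 : pt a b 0 = a := by simp [pt]
  have h1 : pt a b 1 = b := by simp [pt]
  have hg : Good a b Φ (ex h.le F') 0 1 := by
    apply hComp a b h φ Φ F' hcl 0 1 le_rfl one_pos le_rfl
    rw [hgood, h0, h1]
  exact (hg 0 1 le_rfl one_pos le_rfl).1

end Pool.Agent.Q302.DJ.TaskMin
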