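import Pool.Agent.Q302.DJ.Stmts

set_option autoImplicit false

namespace Pool.Agent.Q302.DJ.TaskNull

open MeasureTheory Set Filter Topology Pool.Agent.Q302.DJ
open scoped ENNReal

lemma abs_le_osc {F : ℝ → ℝ} (hF : Continuous F) {x y : ℝ} (hxy : x ≤ y) :
    |F x - F y| ≤ osc F x y := by
  unfold osc
  apply le_csSup
  · apply IsCompact.bddAbove_image (isCompact_Icc.prod isCompact_Icc)
    apply Continuous.continuousOn
    fun_prop
  · exact ⟨(x, y), ⟨⟨le_rfl, hxy⟩, ⟨hxy, le_rfl⟩⟩, rfl⟩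

lemma pair {F : ℝ → ℝ} (hF : Continuous F) {K A : Set ℝ} (hA : A ⊆ K)
    (hfin : volume (F '' A) ≠ ⊤) (h0 : volume (F '' A) ≠ 0) :
    ∃ x y : ℝ, x ∈ A ∧ y ∈ A ∧ x < y ∧ volume (F '' A) ≤ 2 * ENNReal.ofReal (osc F x y) := by
  by_contra hcon
  push Not at hcon
  have h1 : Metric.ediam (F '' A) ≤ volume (F '' A) / 2 := by
    apply Metric.ediam_le
    rintro _ ⟨x, hx, rfl⟩ _ ⟨y, hy, rfl⟩
    have key : ∀ x ∈ A, ∀ y ∈ A, x < y → edist (F x) (F y) ≤ volume (F '' A) / 2 := by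
      intro x hx y hy hxy
      have h2 := (hcon x y hx hy hxy).le
      rw [edist_dist, Real.dist_eq]
      rw [ENNReal.le_div_iff_mul_le (Or.inl (by norm_num)) (Or.inl (by norm_num)), mul_comm]
      refine le_trans ?_ h2
      gcongr
      exact abs_le_osc hF hxy.le
    rcases lt_trichotomy x y with h | h | h
    · exact key x hx y hy h
    · rw [h, edist_self]
      exact zero_le
    · rw [edist_comm]
      exact key y hy x hx h
  have h2 : volume (F '' A) ≤ volume (F '' A) / 2 := (Real.volume_le_diam _).trans h1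
  exact absurd h2 (not_le.2 (ENNReal.half_lt_self h0 hfin))

theorem main : Pool.Agent.Q302.DJ.TaskNull := by
  intro F K N hF hK hAC hNK hN
  have hfin : ∀ A ⊆ K, volume (F '' A) ≠ ⊤ := by
    intro A hA
    have hc : IsCompact (F '' closure K) := (hK.isCompact_closure).image hF
    exact ((measure_mono (image_mono (hA.trans subset_closure))).trans_lt hc.measure_lt_top).ne
  refine le_antisymm ?_ zero_le
  refine ENNReal.le_of_forall_pos_le_add ?_
  intro ε hε _
  rw [zero_add]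
  obtain ⟨δ, hδ, hac⟩ := hAC ((ε : ℝ) / 2) (by positivity)
  obtain ⟨O, hNO, hO, hOδ⟩ := N.exists_isOpen_lt_of_lt (ENNReal.ofReal δ)
    (by rw [hN]; exact ENNReal.ofReal_pos.2 hδ)
  set S : Set (Set ℝ) := (fun x => connectedComponentIn O x) '' O with hS
  have hSopen : ∀ C ∈ S, IsOpen C := by
    rintro _ ⟨x, hx, rfl⟩
    exact hO.connectedComponentIn
  have hSne : ∀ C ∈ S, C.Nonempty := by
    rintro _ ⟨x, hx, rfl⟩
    exact ⟨x, mem_connectedComponentIn hx⟩
  have hSord : ∀ C ∈ S, OrdConnected C := by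
    rintro _ ⟨x, hx, rfl⟩
    exact isPreconnected_connectedComponentIn.ordConnected
  have hSsub : ∀ C ∈ S, C ⊆ O := by
    rintro _ ⟨x, hx, rfl⟩
    exact connectedComponentIn_subset O x
  have hSdis : S.PairwiseDisjoint id := by
    rintro _ ⟨x, hx, rfl⟩ _ ⟨y, hy, rfl⟩ hne
    rw [Function.onFun, id, id, Set.disjoint_left]
    intro z hz1 hz2
    exact hne ((connectedComponentIn_eq hz1).trans (connectedComponentIn_eq hz2).symm)
  have hScount : S.Countable := hSdis.countable_of_isOpen hSopen hSne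
  have hcov : F '' N ⊆ ⋃ C ∈ S, F '' (N ∩ C) := by
    rintro _ ⟨x, hx, rfl⟩
    rw [mem_iUnion₂]
    exact ⟨_, ⟨x, hNO hx, rfl⟩, ⟨x, ⟨hx, mem_connectedComponentIn (hNO hx)⟩, rfl⟩⟩
  refine (measure_mono hcov).trans ((measure_biUnion_le _ hScount _).trans ?_)
  apply ENNReal.summable.tsum_le_of_sum_le
  intro t
  set v : S → ℝ≥0∞ := fun C => volume (F '' (N ∩ (C : Set ℝ))) with hv
  have hch : ∀ C : S, v C ≠ 0 → ∃ x y : ℝ, x ∈ N ∩ (C : Set ℝ) ∧ y ∈ N ∩ (C : Set ℝ) ∧ x < y ∧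
      v C ≤ 2 * ENNReal.ofReal (osc F x y) := fun C hC =>
    pair hF (inter_subset_left.trans hNK) (hfin _ (inter_subset_left.trans hNK)) hC
  choose! x y hx hy hxy hvxy using hch
  change ∑ C ∈ t, v C ≤ _
  rw [← Finset.sum_filter_ne_zero]
  set t' := t.filter (fun C => v C ≠ 0) with ht'
  have hmem : ∀ C ∈ t', v C ≠ 0 := fun C hC => (Finset.mem_filter.1 hC).2
  set e := t'.equivFin.symm with he
  have hsum : ∀ g : S → ℝ, ∑ i : Fin t'.card, g (e i) = ∑ C ∈ t', g C := by
    intro g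
    rw [← Finset.sum_coe_sort t' g]
    exact Equiv.sum_comp e (fun C : t' => g C)
  have hIoo : ∀ C ∈ t', Ioo (x C) (y C) ⊆ (C : Set ℝ) := fun C hC =>
    Ioo_subset_Icc_self.trans ((hSord C C.2).out (hx C (hmem C hC)).2 (hy C (hmem C hC)).2)
  have hdisj : ∀ C ∈ t', ∀ D ∈ t', C ≠ D → Disjoint (Ioo (x C) (y C)) (Ioo (x D) (y D)) := by
    intro C hC D hD hCD
    exact (hSdis C.2 D.2 (fun h => hCD (Subtype.ext h))).mono (hIoo C hC) (hIoo D hD)
  have hlen : ∑ C ∈ t', (y C - x C) < δ := by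
    have h1 : ENNReal.ofReal (∑ C ∈ t', (y C - x C)) ≤ volume O := by
      rw [ENNReal.ofReal_sum_of_nonneg (fun C hC => (sub_nonneg.2 (hxy C (hmem C hC)).le))]
      calc ∑ C ∈ t', ENNReal.ofReal (y C - x C) = ∑ C ∈ t', volume (Ioo (x C) (y C)) := by
            simp only [Real.volume_Ioo]
        _ = volume (⋃ C ∈ t', Ioo (x C) (y C)) := by
            rw [measure_biUnion_finset]
            · intro C hC D hD hCD
              exact hdisj C hC D hD hCD
            · intro C _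
              exact measurableSet_Ioo
        _ ≤ volume O := measure_mono (iUnion₂_subset fun C hC => (hIoo C hC).trans (hSsub C C.2))
    by_contra h2
    have h3 := ENNReal.ofReal_le_ofReal (not_lt.1 h2)
    exact absurd (h3.trans h1) (not_le.2 hOδ)
  have hmain := hac t'.card (fun i => x (e i)) (fun i => y (e i))
    (fun i => ⟨hNK (hx _ (hmem _ (e i).2)).1, hNK (hy _ (hmem _ (e i).2)).1,
      hxy _ (hmem _ (e i).2)⟩)
    (fun i j hij => hdisj _ (e i).2 _ (e j).2 (fun h => hij (e.injective (Subtype.ext h))))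
    (by
      have := hsum (fun C => y C - x C)
      rw [this]
      exact hlen)
  have hs2 := hsum (fun C => osc F (x C) (y C))
  rw [hs2] at hmain
  have hosc : ∀ C ∈ t', 0 ≤ osc F (x C) (y C) := fun C hC =>
    (abs_nonneg _).trans (abs_le_osc hF (hxy C (hmem C hC)).le)
  calc ∑ C ∈ t', v C ≤ ∑ C ∈ t', 2 * ENNReal.ofReal (osc F (x C) (y C)) :=
        Finset.sum_le_sum fun C hC => hvxy C (hmem C hC)
    _ = 2 * ENNReal.ofReal (∑ C ∈ t', osc F (x C) (y C)) := by
        rw [← Finset.mul_sum, ENNReal.ofReal_sum_of_nonneg hosc]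
    _ ≤ 2 * ENNReal.ofReal ((ε : ℝ) / 2) := by
        gcongr
    _ = ENNReal.ofReal 2 * ENNReal.ofReal ((ε : ℝ) / 2) := by norm_num
    _ = (ε : ℝ≥0∞) := by
        rw [← ENNReal.ofReal_mul (by norm_num)]
        rw [mul_div_cancel₀ _ (by norm_num : (2 : ℝ) ≠ 0)]
        exact ENNReal.ofReal_coe_nnreal

end Pool.Agent.Q302.DJ.TaskNull
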