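import Pool.Agent.Q302.DJ.Stmts

set_option autoImplicit false

namespace Pool.Agent.Q302.DJ.TaskRestr

open MeasureTheory Set Filter Topology Pool.Agent.Q302.DJ

theorem main : Pool.Agent.Q302.DJ.TaskRestr := by
  rintro φ F c d c' d' hc h hd ⟨⟨hF, K, hK, hKU, hKA⟩, hae⟩
  have hsub : Icc c' d' ⊆ Icc c d := Icc_subset_Icc hc hd
  refine ⟨⟨hF.mono hsub, fun n => K n ∩ Icc c' d', fun n => (hK n).inter isClosed_Icc, ?_, ?_⟩, ?_⟩
  · rw [← iUnion_inter, ← hKU]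
    exact (inter_eq_self_of_subset_right hsub).symm
  · intro n ε hε
    obtain ⟨δ, hδ, h1⟩ := hKA n ε hε
    refine ⟨δ, hδ, fun m x y hxy hd hs => ?_⟩
    exact h1 m x y (fun i => ⟨(hxy i).1.1, (hxy i).2.1.1, (hxy i).2.2⟩) hd hs
  · exact ae_restrict_of_ae_restrict_of_subset hsub hae

end Pool.Agent.Q302.DJ.TaskRestr
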