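import Pool.Agent.Q302.DJ.Stmts

/-!
# `TaskSound` (from `TaskGlue`)

The true integral is closed under the extension steps.
-/

set_option autoImplicit false

namespace Pool.Agent.Q302.DJ.TaskSound

open MeasureTheory Set Filter Topology
open Pool.Agent.Q302.DJ

theorem main (hGlue : Pool.Agent.Q302.DJ.TaskGlue) : Pool.Agent.Q302.DJ.TaskSound := by
  intro a b h φ Φ hT F p q r hS hD
  have hP : IsPrim φ (ex h.le F) (pt a b q) (pt a b r) := hGlue a b h φ Φ hT F p q r hS hD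
  obtain ⟨⟨h0, hqr, h1⟩, -⟩ := hS
  obtain ⟨hiff, hval⟩ := hT q r h0 hqr h1
  exact ⟨hiff.2 ⟨_, hP⟩, hval _ hP⟩

end Pool.Agent.Q302.DJ.TaskSound
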