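import Pool.Agent.Q302.DJ.Stmts

set_option autoImplicit false

/-! # `AC_*` of differences -/

namespace Pool.Agent.Q302.DJ.TaskSub

open MeasureTheory Set Filter Topology Pool.Agent.Q302.DJ

theorem bdd {F : ℝ → ℝ} {c d : ℝ} (hF : ContinuousOn F (Icc c d)) :
    BddAbove ((fun z : ℝ × ℝ => |F z.1 - F z.2|) '' (Icc c d ×ˢ Icc c d)) := by
  refine ((isCompact_Icc.prod isCompact_Icc).image_of_continuousOn ?_).bddAbove
  refine ContinuousOn.abs (ContinuousOn.sub ?_ ?_)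
  · exact hF.comp continuousOn_fst (fun z hz => hz.1)
  · exact hF.comp continuousOn_snd (fun z hz => hz.2)

theorem le_osc {F : ℝ → ℝ} {c d : ℝ} (hF : ContinuousOn F (Icc c d)) {u v : ℝ}
    (hu : u ∈ Icc c d) (hv : v ∈ Icc c d) : |F u - F v| ≤ osc F c d :=
  le_csSup (bdd hF) ⟨(u, v), ⟨hu, hv⟩, rfl⟩

theorem osc_sub {F G : ℝ → ℝ} {c d : ℝ} (hcd : c ≤ d) (hF : ContinuousOn F (Icc c d))
    (hG : ContinuousOn G (Icc c d)) : osc (fun x => F x - G x) c d ≤ osc F c d + osc G c d := by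
  have hc : c ∈ Icc c d := ⟨le_rfl, hcd⟩
  refine csSup_le ⟨_, ⟨(c, c), ⟨hc, hc⟩, rfl⟩⟩ ?_
  rintro _ ⟨⟨u, v⟩, ⟨hu, hv⟩, rfl⟩
  have h1 := le_osc hF hu hv
  have h2 := le_osc hG hu hv
  show |F u - G u - (F v - G v)| ≤ _
  have h3 : F u - G u - (F v - G v) = (F u - F v) - (G u - G v) := by ring
  rw [h3]
  exact (abs_sub _ _).trans (add_le_add h1 h2)

theorem main : Pool.Agent.Q302.DJ.TaskSub := by
  intro F G c d hF hG K L hK hFK hGL ε hε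
  obtain ⟨δ₁, hδ₁, h1⟩ := hFK (ε / 2) (half_pos hε)
  obtain ⟨δ₂, hδ₂, h2⟩ := hGL (ε / 2) (half_pos hε)
  refine ⟨min δ₁ δ₂, lt_min hδ₁ hδ₂, fun n x y hxy hdisj hsum => ?_⟩
  have h3 := h1 n x y (fun i => ⟨(hxy i).1.1, (hxy i).2.1.1, (hxy i).2.2⟩) hdisj
    (hsum.trans_le (min_le_left _ _))
  have h4 := h2 n x y (fun i => ⟨(hxy i).1.2, (hxy i).2.1.2, (hxy i).2.2⟩) hdisj
    (hsum.trans_le (min_le_right _ _))
  have h5 : ∑ i, osc (fun x => F x - G x) (x i) (y i) ≤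
      ∑ i, (osc F (x i) (y i) + osc G (x i) (y i)) := by
    refine Finset.sum_le_sum fun i _ => ?_
    have hsub : Icc (x i) (y i) ⊆ Icc c d :=
      Icc_subset_Icc (hK (hxy i).1.1).1 (hK (hxy i).2.1.1).2
    exact osc_sub (hxy i).2.2.le (hF.mono hsub) (hG.mono hsub)
  rw [Finset.sum_add_distrib] at h5
  linarith

end Pool.Agent.Q302.DJ.TaskSub
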