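import Pool.Agent.Q302.DJ.Stmts

set_option autoImplicit false

namespace Pool.Agent.Q302.DJ.TaskTrue

open MeasureTheory Set Filter Topology Pool.Agent.Q302.DJ

theorem main (hU : TaskUniq) : Pool.Agent.Q302.DJ.TaskTrue := by
  classical
  intro a b φ hab
  refine ⟨fun z => if h : ∃ F, IsPrim φ F (pt a b z.1) (pt a b z.2) then
    (h.choose (pt a b z.2) - h.choose (pt a b z.1), true) else (0, false), ?_⟩
  intro q r hq hqr hr
  have hlt : pt a b q < pt a b r := by
    unfold pt
    have h1 : (q : ℝ) < r := by exact_mod_cast hqr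
    have h2 : 0 < b - a := sub_pos.2 hab
    have := mul_lt_mul_of_pos_left h1 h2
    linarith
  constructor
  · by_cases h : ∃ F, IsPrim φ F (pt a b q) (pt a b r)
    · simp only [h, dif_pos]
    · simp only [h, dif_neg, not_false_eq_true]
      simp
  · intro F hF
    have h : ∃ F, IsPrim φ F (pt a b q) (pt a b r) := ⟨F, hF⟩
    simp only [h, dif_pos]
    exact hU φ h.choose F _ _ hlt h.choose_spec hF _ (right_mem_Icc.2 hlt.le)

end Pool.Agent.Q302.DJ.TaskTrue
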