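import Pool.Agent.Q302.DJ.Stmts

set_option autoImplicit false

namespace Pool.Agent.Q302.DJ.TaskUniq

open MeasureTheory Set Filter Topology

theorem main (hSub : TaskSub) (hZero : TaskZero) : Pool.Agent.Q302.DJ.TaskUniq := by
  intro φ F G c d hcd ⟨⟨hFc, K, hK1, hK2, hK3⟩, hF⟩ ⟨⟨hGc, L, hL1, hL2, hL3⟩, hG⟩ x hx
  have hH : IsPrim (fun _ => 0) (fun x => F x - G x) c d := by
    refine ⟨⟨hFc.sub hGc, fun n => K (Nat.unpair n).1 ∩ L (Nat.unpair n).2,
      fun n => (hK1 _).inter (hL1 _), ?_, ?_⟩, ?_⟩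
    · ext y
      constructor
      · intro hy
        have hy1 : y ∈ ⋃ n, K n := hK2 ▸ hy
        have hy2 : y ∈ ⋃ n, L n := hL2 ▸ hy
        obtain ⟨n, hn⟩ := mem_iUnion.mp hy1
        obtain ⟨m, hm⟩ := mem_iUnion.mp hy2
        refine mem_iUnion.mpr ⟨Nat.pair n m, ?_⟩
        rw [Nat.unpair_pair]
        exact ⟨hn, hm⟩
      · intro hy
        obtain ⟨n, hn⟩ := mem_iUnion.mp hy
        rw [hK2]
        exact mem_iUnion.mpr ⟨_, hn.1⟩
    · intro n
      refine hSub F G c d hFc hGc _ _ ?_ (hK3 _) (hL3 _)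
      rw [hK2]
      exact subset_iUnion K _
    · filter_upwards [hF, hG] with y h1 h2
      have h3 := h1.sub h2
      rw [sub_self] at h3
      exact h3
  have h := hZero _ c d hcd hH x hx
  linarith

end Pool.Agent.Q302.DJ.TaskUniq
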