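import Pool.Agent.Q302.DJ.Stmts

set_option autoImplicit false

namespace Pool.Agent.Q302.DJ

open MeasureTheory Set Filter Topology

private theorem osc_congr (F G : ℝ → ℝ) (c d x y : ℝ) (hFG : ∀ z ∈ Icc c d, G z = F z)
    (hx : c ≤ x) (hy : y ≤ d) : osc G x y = osc F x y := by
  unfold osc
  congr 1
  apply Set.image_congr
  rintro ⟨u, v⟩ ⟨hu, hv⟩
  simp only
  rw [hFG u ⟨hx.trans hu.1, hu.2.trans hy⟩, hFG v ⟨hx.trans hv.1, hv.2.trans hy⟩]

theorem taskZero (hNull : TaskNull) : TaskZero := by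
  intro F c d hcd hP x hx
  obtain ⟨⟨hcont, K, hK1, hK2, hK3⟩, hder⟩ := hP
  -- extension
  set G : ℝ → ℝ := IccExtend hcd.le (fun z : Icc c d => F z) with hG
  have hGc : Continuous G := by
    rw [hG]
    apply Continuous.Icc_extend'
    exact hcont.domRestrict
  have hGF : ∀ z ∈ Icc c d, G z = F z := by
    intro z hz
    rw [hG, IccExtend_of_mem _ _ hz]
  have hKs : ∀ n, K n ⊆ Icc c d := by
    intro n
    rw [hK2]
    exact subset_iUnion K n
  have hGK : ∀ n, ACStar G (K n) := by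
    intro n ε hε
    obtain ⟨δ, hδ, h⟩ := hK3 n ε hε
    refine ⟨δ, hδ, fun k u v h1 h2 h3 => ?_⟩
    have := h k u v h1 h2 h3
    refine lt_of_eq_of_lt ?_ this
    apply Finset.sum_congr rfl
    intro i _
    exact osc_congr F G c d (u i) (v i) hGF (hKs n (h1 i).1).1 (hKs n (h1 i).2.1).2
  -- the bad set
  have hbad : volume {z | z ∈ Icc c d ∧ ¬ HasDerivAt F 0 z} = 0 := by
    rw [ae_restrict_iff' measurableSet_Icc, ae_iff] at hder
    refine measure_mono_null ?_ hder
    rintro z ⟨h1, h2⟩ h3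
    exact h2 (h3 h1)
  have h1 : ∀ n, volume (G '' {z | z ∈ K n ∧ ¬ HasDerivAt F 0 z}) = 0 := by
    intro n
    apply hNull G (K n) _ hGc _ (hGK n) (fun z hz => hz.1)
    · refine measure_mono_null ?_ hbad
      rintro z ⟨h1, h2⟩
      exact ⟨hKs n h1, h2⟩
    · exact Metric.isBounded_Icc c d |>.subset (hKs n)
  have h2 : volume (F '' {z | z ∈ Icc c d ∧ HasDerivAt F 0 z}) = 0 := by
    apply addHaar_image_eq_zero_of_det_fderivWithin_eq_zero volume (f' := fun _ => (0 : ℝ →L[ℝ] ℝ))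
    · intro z hz
      have := hz.2.hasFDerivAt
      simpa using this.hasFDerivWithinAt
    · intro z _
      simp [ContinuousLinearMap.det]
  have h3 : F '' Icc c d ⊆ F '' {z | z ∈ Icc c d ∧ HasDerivAt F 0 z} ∪
      ⋃ n, G '' {z | z ∈ K n ∧ ¬ HasDerivAt F 0 z} := by
    rintro _ ⟨z, hz, rfl⟩
    by_cases h : HasDerivAt F 0 z
    · exact Or.inl ⟨z, ⟨hz, h⟩, rfl⟩
    · right
      have hz' := hz
      rw [hK2, mem_iUnion] at hz'
      obtain ⟨n, hn⟩ := hz'
      rw [mem_iUnion]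
      exact ⟨n, z, ⟨hn, h⟩, hGF z hz⟩
  have h4 : volume (F '' Icc c d) = 0 := by
    refine measure_mono_null h3 (measure_union_null h2 ?_)
    rw [measure_iUnion_null_iff]
    exact h1
  have h5 : uIcc (F c) (F x) ⊆ F '' Icc c d := by
    have h6 : ContinuousOn F (uIcc c x) := by
      rw [uIcc_of_le hx.1]
      exact hcont.mono (Icc_subset_Icc le_rfl hx.2)
    refine (intermediate_value_uIcc h6).trans ?_
    rw [uIcc_of_le hx.1]
    exact image_mono (Icc_subset_Icc le_rfl hx.2)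
  have h7 := measure_mono_null h5 h4
  rw [Real.volume_interval, ENNReal.ofReal_eq_zero] at h7
  have h8 : |F x - F c| = 0 := le_antisymm h7 (abs_nonneg _)
  have := abs_eq_zero.1 h8
  linarith

namespace TaskZero

theorem main (hNull : TaskNull) (_ : TaskSub) : Pool.Agent.Q302.DJ.TaskZero := taskZero hNull

end TaskZero

end Pool.Agent.Q302.DJ
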